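import Mathlib

/-!
Divided differences on `ℤ[β][x₀, x₁, …]` and the operators `P i f = ∂ᵢ(xᵢ(1+βxᵢ₊₁)f)`,
`Q i f = ∂ᵢ((1+βxᵢ₊₁)f)`.
-/

namespace Pool.Agent.Helper32.Lasc

open MvPolynomial

/-- The polynomial ring `ℤ[β][x₀, x₁, …]`. -/
abbrev R := MvPolynomial ℕ (Polynomial ℤ)

/-- The parameter `β`. -/
noncomputable def be : R := C Polynomial.X

/-- The automorphism exchanging `xᵢ` and `xᵢ₊₁`. -/
noncomputable def s (i : ℕ) : R →ₐ[Polynomial ℤ] R := rename (Equiv.swap i (i + 1))

/-- The shift `x_j ↦ x_{j+1}`. -/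
noncomputable def sh : R →ₐ[Polynomial ℤ] R := rename (fun j => j + 1)

theorem s_X_self (i : ℕ) : s i (X i) = X (i + 1) := by simp [s, rename_X]
theorem s_X_succ (i : ℕ) : s i (X (i + 1)) = X i := by simp [s, rename_X]
theorem s_X_other {i j : ℕ} (h1 : j ≠ i) (h2 : j ≠ i + 1) : s i (X j) = X j := by
  simp [s, rename_X, Equiv.swap_apply_of_ne_of_ne h1 h2]
theorem s_be (i : ℕ) : s i be = be := by simp [s, be]
theorem sh_X (i : ℕ) : sh (X i) = X (i + 1) := by simp [sh, rename_X]
theorem sh_be : sh be = be := by simp [sh, be]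

theorem s_s (i : ℕ) (f : R) : s i (s i f) = f := by
  simp only [s, rename_rename]
  have : (⇑(Equiv.swap i (i + 1)) ∘ ⇑(Equiv.swap i (i + 1))) = id := by
    funext x; simp
  rw [this, rename_id]; rfl

theorem X_sub_ne (i : ℕ) : (X i - X (i + 1) : R) ≠ 0 := by
  intro h
  have h2 := congrArg (MvPolynomial.eval₂Hom (RingHom.id (Polynomial ℤ)) (fun j => if j = i then 1 else 0)) h
  simp at h2

theorem exists_dd (i : ℕ) (f : R) : ∃ g : R, (X i - X (i + 1)) * g = f - s i f := by
  induction f using MvPolynomial.induction_on with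
  | C a => exact ⟨0, by simp [s]⟩
  | add p q hp hq =>
    obtain ⟨a, ha⟩ := hp
    obtain ⟨b, hb⟩ := hq
    exact ⟨a + b, by rw [mul_add, ha, hb, map_add]; ring⟩
  | mul_X p j hp =>
    obtain ⟨a, ha⟩ := hp
    by_cases h1 : j = i
    · subst h1
      refine ⟨a * X j + s j p, ?_⟩
      rw [map_mul, s_X_self]
      linear_combination X j * ha
    · by_cases h2 : j = i + 1
      · subst h2
        refine ⟨a * X (i + 1) - s i p, ?_⟩
        rw [map_mul, s_X_succ]
        linear_combination X (i + 1) * ha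
      · refine ⟨a * X j, ?_⟩
        rw [map_mul, s_X_other h1 h2]
        linear_combination X j * ha

/-- The divided difference `∂ᵢ f = (f - sᵢ f)/(xᵢ - xᵢ₊₁)`. -/
noncomputable def dd (i : ℕ) (f : R) : R := (exists_dd i f).choose

theorem dd_spec (i : ℕ) (f : R) : (X i - X (i + 1)) * dd i f = f - s i f :=
  (exists_dd i f).choose_spec

theorem dd_unique {i : ℕ} {f g : R} (h : (X i - X (i + 1)) * g = f - s i f) : dd i f = g := by
  have := dd_spec i f
  exact mul_left_cancel₀ (X_sub_ne i) (this.trans h.symm)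

theorem dd_add (i : ℕ) (f g : R) : dd i (f + g) = dd i f + dd i g := by
  apply dd_unique
  rw [map_add]
  linear_combination dd_spec i f + dd_spec i g

theorem dd_sub (i : ℕ) (f g : R) : dd i (f - g) = dd i f - dd i g := by
  apply dd_unique
  rw [map_sub]
  linear_combination dd_spec i f - dd_spec i g

/-- Leibniz rule. -/
theorem dd_mul (i : ℕ) (f g : R) : dd i (f * g) = dd i f * g + s i f * dd i g := by
  apply dd_unique
  rw [map_mul]
  linear_combination g * dd_spec i f + s i f * dd_spec i g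

theorem dd_eq_zero {i : ℕ} {f : R} (h : s i f = f) : dd i f = 0 := by
  apply dd_unique; rw [h]; ring

theorem dd_symm_mul {i : ℕ} {g : R} (h : s i g = g) (f : R) : dd i (g * f) = g * dd i f := by
  rw [dd_mul, dd_eq_zero h, h]; ring

theorem s_dd (i : ℕ) (f : R) : s i (dd i f) = dd i f := by
  symm
  apply dd_unique
  have h := congrArg (s i) (dd_spec i f)
  rw [map_mul, map_sub, map_sub, s_X_self, s_X_succ, s_s] at h
  linear_combination -h

theorem dd_smul (i : ℕ) (c : Polynomial ℤ) (f : R) : dd i (c • f) = c • dd i f := by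
  rw [MvPolynomial.smul_eq_C_mul, MvPolynomial.smul_eq_C_mul]
  apply dd_symm_mul
  simp [s]

/-- `∂ᵢ` as a linear map. -/
noncomputable def ddL (i : ℕ) : R →ₗ[Polynomial ℤ] R where
  toFun := dd i
  map_add' := dd_add i
  map_smul' := fun c f => by simpa using dd_smul i c f

/-- `zᵢ = 1 + β xᵢ`. -/
noncomputable def z (i : ℕ) : R := 1 + be * X i

theorem s_z_self (i : ℕ) : s i (z i) = z (i + 1) := by simp [z, s_be, s_X_self]
theorem s_z_succ (i : ℕ) : s i (z (i + 1)) = z i := by simp [z, s_be, s_X_succ]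
theorem s_z_other {i j : ℕ} (h1 : j ≠ i) (h2 : j ≠ i + 1) : s i (z j) = z j := by
  simp [z, s_be, s_X_other h1 h2]
theorem sh_z (i : ℕ) : sh (z i) = z (i + 1) := by simp [z, sh_be, sh_X]

/-- `P i f = ∂ᵢ(xᵢ(1+βxᵢ₊₁)f)`. -/
noncomputable def P (i : ℕ) : R →ₗ[Polynomial ℤ] R :=
  (ddL i).comp (LinearMap.mulLeft (Polynomial ℤ) (X i * z (i + 1) : R))

/-- `Q i f = ∂ᵢ((1+βxᵢ₊₁)f)`. -/
noncomputable def Q (i : ℕ) : R →ₗ[Polynomial ℤ] R :=
  (ddL i).comp (LinearMap.mulLeft (Polynomial ℤ) (z (i + 1) : R))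

theorem P_apply (i : ℕ) (f : R) : P i f = dd i (X i * z (i + 1) * f) := rfl
theorem Q_apply (i : ℕ) (f : R) : Q i f = dd i (z (i + 1) * f) := rfl

theorem Q_X (i : ℕ) (f : R) : Q i (X i * f) = P i f := by
  rw [P_apply, Q_apply]; congr 1; ring

theorem P_symm_mul {i : ℕ} {g : R} (h : s i g = g) (f : R) : P i (g * f) = g * P i f := by
  rw [P_apply, P_apply, ← dd_symm_mul h]; congr 1; ring

theorem Q_symm_mul {i : ℕ} {g : R} (h : s i g = g) (f : R) : Q i (g * f) = g * Q i f := by
  rw [Q_apply, Q_apply, ← dd_symm_mul h]; congr 1; ring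

theorem dd_X_self (i : ℕ) : dd i (X i) = 1 := by
  apply dd_unique; rw [s_X_self]; ring

theorem dd_Xz (i : ℕ) : dd i (X i * z (i + 1)) = 1 := by
  apply dd_unique
  rw [map_mul, s_X_self, s_z_succ]; simp only [z]; ring

theorem P_of_symm {i : ℕ} {f : R} (h : s i f = f) : P i f = f := by
  rw [P_apply, mul_comm, dd_symm_mul h, dd_Xz, mul_one]

theorem s_P (i : ℕ) (f : R) : s i (P i f) = P i f := by rw [P_apply, s_dd]
theorem s_Q (i : ℕ) (f : R) : s i (Q i f) = Q i f := by rw [Q_apply, s_dd]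

theorem P_P (i : ℕ) (f : R) : P i (P i f) = P i f := P_of_symm (s_P i f)

theorem P_be (i : ℕ) (f : R) : P i (be * f) = be * P i f := P_symm_mul (s_be i) f
theorem Q_be (i : ℕ) (f : R) : Q i (be * f) = be * Q i f := Q_symm_mul (s_be i) f

/-- The defining relation of `P` without division. -/
theorem P_spec (i : ℕ) (f : R) :
    (X i - X (i + 1)) * P i f = X i * z (i + 1) * f - X (i + 1) * z i * s i f := by
  rw [P_apply, dd_spec, map_mul, map_mul, s_X_self, s_z_succ]

theorem Q_spec (i : ℕ) (f : R) :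
    (X i - X (i + 1)) * Q i f = z (i + 1) * f - z i * s i f := by
  rw [Q_apply, dd_spec, map_mul, s_z_succ]

theorem X_P (i : ℕ) (f : R) :
    X i * P i f = P i (X (i + 1) * f) + X i * z (i + 1) * f := by
  apply mul_left_cancel₀ (X_sub_ne i)
  rw [mul_add, P_spec, mul_left_comm, P_spec, map_mul, s_X_succ]
  ring

theorem z_P (i : ℕ) (f : R) :
    z i * P i f = P i (z (i + 1) * f) + be * X i * z (i + 1) * f := by
  apply mul_left_cancel₀ (X_sub_ne i)
  rw [mul_add, P_spec, mul_left_comm, P_spec, map_mul, s_z_succ]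
  simp only [z]; ring

theorem Xz_P (i : ℕ) (f : R) :
    X i * z (i + 1) * P i f = X i * z (i + 1) * f + P i (z i * X (i + 1) * f) := by
  apply mul_left_cancel₀ (X_sub_ne i)
  rw [mul_add, P_spec, mul_left_comm, P_spec, map_mul, map_mul, s_X_succ, s_z_self]
  simp only [z]; ring

theorem P_zX_P (i : ℕ) (f : R) : P i (z i * X (i + 1) * P i f) = 0 := by
  have h := P_apply i (z i * X (i + 1) * P i f)
  rw [h]
  apply dd_eq_zero
  simp only [map_mul, s_X_self, s_z_succ, s_z_self, s_X_succ, s_P]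
  ring

theorem XX_P (i : ℕ) (f : R) : X i * X (i + 1) * P i f = P i (X i * X (i + 1) * f) := by
  rw [P_symm_mul]; simp [s_X_self, s_X_succ, mul_comm]

theorem zz_P (i : ℕ) (f : R) : z i * z (i + 1) * P i f = P i (z i * z (i + 1) * f) := by
  rw [P_symm_mul]; simp [s_z_self, s_z_succ, mul_comm]

theorem X_P_comm {i j : ℕ} (h1 : j ≠ i) (h2 : j ≠ i + 1) (f : R) :
    P i (X j * f) = X j * P i f := P_symm_mul (s_X_other h1 h2) f
theorem z_P_comm {i j : ℕ} (h1 : j ≠ i) (h2 : j ≠ i + 1) (f : R) :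
    P i (z j * f) = z j * P i f := P_symm_mul (s_z_other h1 h2) f
theorem X_Q_comm {i j : ℕ} (h1 : j ≠ i) (h2 : j ≠ i + 1) (f : R) :
    Q i (X j * f) = X j * Q i f := Q_symm_mul (s_X_other h1 h2) f

/-- `s i` and `s j` commute when `i + 2 ≤ j`. -/
theorem s_comm {i j : ℕ} (h : i + 2 ≤ j) (f : R) : s i (s j f) = s j (s i f) := by
  simp only [s, rename_rename]
  congr 2
  funext x
  simp only [Function.comp_apply, Equiv.swap_apply_def]
  split_ifs <;> omega

theorem s_braid (i : ℕ) (f : R) : s i (s (i + 1) (s i f)) = s (i + 1) (s i (s (i + 1) f)) := by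
  simp only [s, rename_rename]
  congr 2
  funext x
  simp only [Function.comp_apply, Equiv.swap_apply_def]
  split_ifs <;> omega

theorem s_dd_comm {i j : ℕ} (h : i + 2 ≤ j ∨ j + 2 ≤ i) (f : R) : s i (dd j f) = dd j (s i f) := by
  symm
  apply dd_unique
  have h1 := congrArg (s i) (dd_spec j f)
  rw [map_mul, map_sub, map_sub, s_X_other (by omega) (by omega),
    s_X_other (by omega) (by omega)] at h1
  rw [h1]
  rcases h with h | h
  · rw [s_comm h]
  · rw [s_comm h]

theorem dd_comm {i j : ℕ} (h : i + 2 ≤ j ∨ j + 2 ≤ i) (f : R) : dd i (dd j f) = dd j (dd i f) := by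
  apply dd_unique
  rw [s_dd_comm h]
  have h1 : s j (X i - X (i + 1) : R) = X i - X (i + 1) := by
    rw [map_sub, s_X_other (by omega) (by omega), s_X_other (by omega) (by omega)]
  rw [← dd_symm_mul h1, dd_spec, dd_sub]

theorem dd_mul_comm {i j : ℕ} (h : i + 2 ≤ j ∨ j + 2 ≤ i) {g k : R} (hg : s j g = g)
    (hk : s i k = k) (f : R) : dd i (g * dd j (k * f)) = dd j (k * dd i (g * f)) := by
  have e1 : g * dd j (k * f) = dd j (g * (k * f)) := (dd_symm_mul hg (k * f)).symm
  have e2 : k * dd i (g * f) = dd i (k * (g * f)) := (dd_symm_mul hk (g * f)).symm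
  rw [e1, e2, dd_comm h, mul_left_comm g k f]

theorem s_Xz_other {i j : ℕ} (h : i + 2 ≤ j ∨ j + 2 ≤ i) :
    s i (X j * z (j + 1) : R) = X j * z (j + 1) := by
  rw [map_mul, s_X_other (by omega) (by omega), s_z_other (by omega) (by omega)]

theorem P_comm {i j : ℕ} (h : i + 2 ≤ j ∨ j + 2 ≤ i) (f : R) : P i (P j f) = P j (P i f) :=
  dd_mul_comm h (s_Xz_other h.symm) (s_Xz_other h) f

theorem Q_comm {i j : ℕ} (h : i + 2 ≤ j ∨ j + 2 ≤ i) (f : R) : Q i (Q j f) = Q j (Q i f) :=
  dd_mul_comm h (s_z_other (by omega) (by omega)) (s_z_other (by omega) (by omega)) f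

theorem QP_comm {i j : ℕ} (h : i + 2 ≤ j ∨ j + 2 ≤ i) (f : R) : Q i (P j f) = P j (Q i f) :=
  dd_mul_comm h (s_z_other (by omega) (by omega)) (s_Xz_other h) f

/-- compatibility with the shift -/
theorem sh_s (i : ℕ) (f : R) : sh (s i f) = s (i + 1) (sh f) := by
  simp only [s, sh, rename_rename]
  congr 2
  funext x
  simp only [Function.comp_apply, Equiv.swap_apply_def]
  split_ifs <;> omega

theorem dd_sh (i : ℕ) (f : R) : dd (i + 1) (sh f) = sh (dd i f) := by
  apply dd_unique
  have h := congrArg sh (dd_spec i f)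
  rw [map_mul, map_sub, map_sub, sh_X, sh_X, sh_s] at h
  exact h

theorem P_sh (i : ℕ) (f : R) : P (i + 1) (sh f) = sh (P i f) := by
  rw [P_apply, P_apply, ← dd_sh, map_mul, map_mul, sh_X, sh_z]

theorem Q_sh (i : ℕ) (f : R) : Q (i + 1) (sh f) = sh (Q i f) := by
  rw [Q_apply, Q_apply, ← dd_sh, map_mul, sh_z]

theorem X_sub_ne' (i : ℕ) : (X i - X (i + 2) : R) ≠ 0 := by
  intro h
  have h2 := congrArg (MvPolynomial.eval₂Hom (RingHom.id (Polynomial ℤ)) (fun j => if j = i then 1 else 0)) h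
  simp at h2

theorem P_braid (i : ℕ) (f : R) :
    P i (P (i + 1) (P i f)) = P (i + 1) (P i (P (i + 1) f)) := by
  have h1 : s (i + 1) (X i : R) = X i := s_X_other (by omega) (by omega)
  have h2 : s (i + 1) (z i : R) = z i := s_z_other (by omega) (by omega)
  have h3 : s i (X (i + 2) : R) = X (i + 2) := s_X_other (by omega) (by omega)
  have h4 : s i (z (i + 2) : R) = z (i + 2) := s_z_other (by omega) (by omega)
  have h5 : s (i + 1) (X (i + 1 + 1) : R) = X (i + 1) := s_X_succ (i + 1)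
  have h6 : s (i + 1) (z (i + 1 + 1) : R) = z (i + 1) := s_z_succ (i + 1)
  have E1 := P_spec i f
  have E2 := P_spec (i + 1) (P i f)
  have E3 := congrArg (s (i + 1)) E1
  have E4 := P_spec i (P (i + 1) (P i f))
  have E5 := congrArg (s i) E2
  have E6 := congrArg (s i) E3
  have F1 := P_spec (i + 1) f
  have F2 := P_spec i (P (i + 1) f)
  have F3 := congrArg (s i) F1
  have F4 := P_spec (i + 1) (P i (P (i + 1) f))
  have F5 := congrArg (s (i + 1)) F2
  have F6 := congrArg (s (i + 1)) F3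
  simp only [map_mul, map_sub, s_X_self, s_X_succ, s_z_self, s_z_succ, h1, h2, h3, h4, h5, h6,
    s_P, show i + 1 + 1 = i + 2 from rfl] at E1 E2 E3 E4 E5 E6 F1 F2 F3 F4 F5 F6
  rw [← s_braid] at F6
  apply mul_left_cancel₀ (X_sub_ne i)
  apply mul_left_cancel₀ (X_sub_ne (i + 1))
  apply mul_left_cancel₀ (X_sub_ne' i)
  generalize P i f = p at *
  generalize P (i + 1) p = q at *
  generalize P i q = r at *
  generalize P (i + 1) f = p' at *
  generalize P i p' = q' at *
  generalize P (i + 1) q' = r' at *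
  generalize s (i + 1) p = sp at *
  generalize s i sp = ssp at *
  generalize s i q = sq at *
  generalize s i p' = sp' at *
  generalize s (i + 1) sp' = ssp' at *
  generalize s (i + 1) q' = sq' at *
  generalize s i (s (i + 1) (s i f)) = f3 at *
  generalize s (i + 1) (s i f) = fji at *
  generalize s i (s (i + 1) f) = fij at *
  generalize s i f = fi at *
  generalize s (i + 1) f = fj at *
  simp only [z] at *
  generalize (be : R) = b at *
  generalize (X i : R) = x at *
  generalize (X (i + 1) : R) = y at *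
  generalize (X (i + 2) : R) = w at *
  have L : (x - w) * ((y - w) * ((x - y) * r)) =
      x * y * (1 + b * w) ^ 2 * (x * (1 + b * y) * f - y * (1 + b * x) * fi)
      - x * w * (1 + b * y) ^ 2 * (x * (1 + b * w) * fj - w * (1 + b * x) * fji)
      + y * w * (1 + b * x) ^ 2 * (y * (1 + b * w) * fij - w * (1 + b * y) * f3) := by
    linear_combination (y - w) * (x - w) * E4 + (x - w) * x * (1 + b * y) * E2
      - (y - w) * y * (1 + b * x) * E5 + x * y * (1 + b * w) ^ 2 * E1
      - x * w * (1 + b * y) ^ 2 * E3 + y * w * (1 + b * x) ^ 2 * E6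
  have M : (x - w) * ((y - w) * ((x - y) * r')) =
      x * y * (1 + b * w) ^ 2 * (x * (1 + b * y) * f - y * (1 + b * x) * fi)
      - x * w * (1 + b * y) ^ 2 * (x * (1 + b * w) * fj - w * (1 + b * x) * fji)
      + y * w * (1 + b * x) ^ 2 * (y * (1 + b * w) * fij - w * (1 + b * y) * f3) := by
    linear_combination (x - y) * (x - w) * F4 + (x - w) * y * (1 + b * w) * F2
      - (x - y) * w * (1 + b * y) * F5 + x ^ 2 * (1 + b * y) * (1 + b * w) * F1
      - y ^ 2 * (1 + b * w) * (1 + b * x) * F3 + w ^ 2 * (1 + b * x) * (1 + b * y) * F6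
  rw [L, M]

theorem Q_braid (i : ℕ) (f : R) :
    Q i (Q (i + 1) (Q i f)) = Q (i + 1) (Q i (Q (i + 1) f)) := by
  have h1 : s (i + 1) (X i : R) = X i := s_X_other (by omega) (by omega)
  have h2 : s (i + 1) (z i : R) = z i := s_z_other (by omega) (by omega)
  have h3 : s i (X (i + 2) : R) = X (i + 2) := s_X_other (by omega) (by omega)
  have h4 : s i (z (i + 2) : R) = z (i + 2) := s_z_other (by omega) (by omega)
  have h5 : s (i + 1) (X (i + 1 + 1) : R) = X (i + 1) := s_X_succ (i + 1)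
  have h6 : s (i + 1) (z (i + 1 + 1) : R) = z (i + 1) := s_z_succ (i + 1)
  have E1 := Q_spec i f
  have E2 := Q_spec (i + 1) (Q i f)
  have E3 := congrArg (s (i + 1)) E1
  have E4 := Q_spec i (Q (i + 1) (Q i f))
  have E5 := congrArg (s i) E2
  have E6 := congrArg (s i) E3
  have F1 := Q_spec (i + 1) f
  have F2 := Q_spec i (Q (i + 1) f)
  have F3 := congrArg (s i) F1
  have F4 := Q_spec (i + 1) (Q i (Q (i + 1) f))
  have F5 := congrArg (s (i + 1)) F2
  have F6 := congrArg (s (i + 1)) F3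
  simp only [map_mul, map_sub, s_X_self, s_X_succ, s_z_self, s_z_succ, h1, h2, h3, h4, h5, h6,
    s_Q, show i + 1 + 1 = i + 2 from rfl] at E1 E2 E3 E4 E5 E6 F1 F2 F3 F4 F5 F6
  rw [← s_braid] at F6
  apply mul_left_cancel₀ (X_sub_ne i)
  apply mul_left_cancel₀ (X_sub_ne (i + 1))
  apply mul_left_cancel₀ (X_sub_ne' i)
  generalize Q i f = p at *
  generalize Q (i + 1) p = q at *
  generalize Q i q = r at *
  generalize Q (i + 1) f = p' at *
  generalize Q i p' = q' at *
  generalize Q (i + 1) q' = r' at *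
  generalize s (i + 1) p = sp at *
  generalize s i sp = ssp at *
  generalize s i q = sq at *
  generalize s i p' = sp' at *
  generalize s (i + 1) sp' = ssp' at *
  generalize s (i + 1) q' = sq' at *
  generalize s i (s (i + 1) (s i f)) = f3 at *
  generalize s (i + 1) (s i f) = fji at *
  generalize s i (s (i + 1) f) = fij at *
  generalize s i f = fi at *
  generalize s (i + 1) f = fj at *
  simp only [z] at *
  generalize (be : R) = b at *
  generalize (X i : R) = x at *
  generalize (X (i + 1) : R) = y at *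
  generalize (X (i + 2) : R) = w at *
  have L : (x - w) * ((y - w) * ((x - y) * r)) =
      (1 + b * w) ^ 2 * ((1 + b * y) * f - (1 + b * x) * fi)
      - (1 + b * y) ^ 2 * ((1 + b * w) * fj - (1 + b * x) * fji)
      + (1 + b * x) ^ 2 * ((1 + b * w) * fij - (1 + b * y) * f3) := by
    linear_combination (y - w) * (x - w) * E4 + (x - w) * (1 + b * y) * E2
      - (y - w) * (1 + b * x) * E5 + (1 + b * w) ^ 2 * E1
      - (1 + b * y) ^ 2 * E3 + (1 + b * x) ^ 2 * E6
  have M : (x - w) * ((y - w) * ((x - y) * r')) =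
      (1 + b * w) ^ 2 * ((1 + b * y) * f - (1 + b * x) * fi)
      - (1 + b * y) ^ 2 * ((1 + b * w) * fj - (1 + b * x) * fji)
      + (1 + b * x) ^ 2 * ((1 + b * w) * fij - (1 + b * y) * f3) := by
    linear_combination (x - y) * (x - w) * F4 + (x - w) * (1 + b * w) * F2
      - (x - y) * (1 + b * y) * F5 + (1 + b * y) * (1 + b * w) * F1
      - (1 + b * w) * (1 + b * x) * F3 + (1 + b * x) * (1 + b * y) * F6
  rw [L, M]

theorem Q_X_mul (i : ℕ) (g f : R) : Q i (X i * g * f) = P i (g * f) := by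
  rw [mul_assoc, Q_X]

/-- mixed braid relation -/
theorem QPP (i : ℕ) (f : R) :
    Q (i + 1) (P i (P (i + 1) f)) = P i (P (i + 1) (Q i f)) := by
  have hs : s i (X i * X (i + 1) : R) = X i * X (i + 1) := by
    rw [map_mul, s_X_self, s_X_succ, mul_comm]
  have e1 : P i (P (i + 1) f) = Q i (Q (i + 1) (X i * X (i + 1) * f)) := by
    rw [← Q_X i, ← Q_X (i + 1), ← X_Q_comm (i := i + 1) (j := i) (by omega) (by omega), mul_assoc]
  have e2 : P i (P (i + 1) (Q i f)) = Q i (Q (i + 1) (X i * X (i + 1) * Q i f)) := by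
    rw [← Q_X i, ← Q_X (i + 1), ← X_Q_comm (i := i + 1) (j := i) (by omega) (by omega), mul_assoc]
  rw [e1, e2, ← Q_braid, Q_symm_mul hs]

theorem one_mul_s (i : ℕ) : s i (1 : R) = 1 := map_one _

theorem P_one (i : ℕ) : P i (1 : R) = 1 := P_of_symm (map_one _)

attribute [irreducible] be s sh dd z P Q

end Pool.Agent.Helper32.Lasc
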