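import Pool.Agent.Helper32.Lasc.VOp

/-! The insertion operators `I k b` and the formula for several equal maxima. -/

namespace Pool.Agent.Helper32.Lasc

open MvPolynomial Finset

/-- Insertion operator: `I k b f = P_{k-1} ⋯ P_0 (x₀ᵇ f(x₁,x₂,…))`. -/
noncomputable def I (k b : ℕ) : R →ₗ[Polynomial ℤ] R :=
  (D 0 k).comp ((LinearMap.mulLeft (Polynomial ℤ) (X 0 ^ b : R)).comp sh.toLinearMap)

theorem I_apply (k b : ℕ) (f : R) : I k b f = D 0 k (X 0 ^ b * sh f) := rfl

theorem I_zero (b : ℕ) (f : R) : I 0 b f = X 0 ^ b * sh f := rfl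

theorem I_succ (k b : ℕ) (f : R) : I (k + 1) b f = P k (I k b f) := by
  rw [I_apply, D_succ, I_apply, Nat.zero_add]

theorem I_be (k b : ℕ) (f : R) : I k b (be * f) = be * I k b f := by
  rw [I_apply, map_mul sh, sh_be, mul_left_comm, D_be, I_apply]

theorem D_X_pow {k n j : ℕ} (h : j < k ∨ k + n < j) (b : ℕ) (f : R) :
    D k n (X j ^ b * f) = X j ^ b * D k n f := by
  induction b generalizing f with
  | zero => simp
  | succ b ih => rw [pow_succ, mul_assoc, ih, D_X h, mul_assoc]

theorem V_X_pow {k j : ℕ} {w : List Bool} (h : j < k) (b : ℕ) (f : R) :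
    V k w (X j ^ b * f) = X j ^ b * V k w f := by
  induction b generalizing f with
  | zero => simp
  | succ b ih => rw [pow_succ, mul_assoc, ih, V_X h, mul_assoc]

theorem P_X_pow {i j : ℕ} (h1 : j ≠ i) (h2 : j ≠ i + 1) (b : ℕ) (f : R) :
    P i (X j ^ b * f) = X j ^ b * P i f := by
  induction b generalizing f with
  | zero => simp
  | succ b ih => rw [pow_succ, mul_assoc, ih, X_P_comm h1 h2, mul_assoc]

theorem P_I_far {i k : ℕ} (h : k ≤ i) (b : ℕ) (f : R) :
    P (i + 1) (I k b f) = I k b (P i f) := by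
  rw [I_apply, ← D_P_far (by omega), P_X_pow (by omega) (by omega), P_sh, I_apply]

theorem P_I_in {i k : ℕ} (h : i + 2 ≤ k) (b : ℕ) (f : R) :
    P i (I k b f) = I k b (P i f) := by
  rw [I_apply, ← D_P (by omega) (by omega), P_X_pow (by omega) (by omega), P_sh, I_apply]

theorem P_I_self (k b : ℕ) (f : R) : P k (I k b f) = I (k + 1) b f := (I_succ k b f).symm

theorem P_I_succ (k b : ℕ) (f : R) : P k (I (k + 1) b f) = I (k + 1) b f := by
  rw [I_succ, P_P]

theorem I_split {r k : ℕ} (h : r ≤ k) (b : ℕ) (f : R) : I k b f = D r (k - r) (I r b f) := by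
  rw [I_apply, I_apply]
  have := D_add_split 0 r (k - r) (X 0 ^ b * sh f)
  rw [Nat.add_sub_cancel' h, Nat.zero_add] at this
  exact this

theorem V_D_far {w : List Bool} {r n : ℕ} (h : w.length ≤ r) (f : R) :
    V 0 w (D r n f) = D r n (V 0 w f) := by
  induction n with
  | zero => rfl
  | succ n ih => rw [D_succ, V_P_far (by omega), ih, D_succ]

theorem D_D_far {a m c n : ℕ} (h : a + m + 1 ≤ c ∨ c + n + 1 ≤ a) (f : R) :
    D a m (D c n f) = D c n (D a m f) := by
  induction n with
  | zero => rfl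
  | succ n ih => rw [D_succ, D_P_far (by omega), ih (by omega), D_succ]

theorem V_one_X_sh (w : List Bool) (b : ℕ) (f : R) :
    V 1 w (X 0 ^ b * sh f) = X 0 ^ b * sh (V 0 w f) := by
  rw [V_X_pow (by omega), V_sh]

theorem D_X_sh (j b : ℕ) (w : List Bool) (f : R) :
    D 0 j (X 0 * V 1 w (X 0 ^ b * sh f)) = I j (b + 1) (V 0 w f) := by
  rw [V_one_X_sh, I_apply]; congr 1; ring

/-- Rule (R3) for insertion at position `r = |w|`. -/
theorem V_I_len (w : List Bool) (b : ℕ) (f : R) :
    V 0 w (I w.length b f) = I w.length b (V 0 w f)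
      + (if true ∈ w then be * I (w.length - 1) (b + 1) (V 0 w f) else 0)
      + ∑ j ∈ range (fh w), I j (b + 1) (V 0 (w.set j true) f) := by
  rw [I_apply, V_D, Nat.zero_add, V_one_X_sh, I_apply]
  congr 2
  · rw [← D_X_sh, V_one_X_sh]
  · funext j
    rw [← D_X_sh]

/-- Rule (R3) for insertion at position `k ≥ r = |w|`. -/
theorem V_I_ge {w : List Bool} {k : ℕ} (h : w.length ≤ k) (b : ℕ) (f : R) :
    V 0 w (I k b f) = I k b (V 0 w f)
      + (if true ∈ w then be * D w.length (k - w.length) (I (w.length - 1) (b + 1) (V 0 w f)) else 0)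
      + ∑ j ∈ range (fh w), D w.length (k - w.length) (I j (b + 1) (V 0 (w.set j true) f)) := by
  rw [I_split h, V_D_far le_rfl, V_I_len, map_add, map_add, map_sum, I_split h]
  congr 2
  by_cases hw : true ∈ w
  · rw [if_pos hw, if_pos hw, D_be]
  · rw [if_neg hw, if_neg hw, map_zero]

/-- Rules (Ra), (Rb), (Rc). -/
theorem V_I_lt {w : List Bool} {q : ℕ} (hq : q < w.length) (b : ℕ) (f : R) :
    V 0 w (I q b f) =
      if w.getD q false = true then
        (I (w.length - 1) b (V 0 (w.eraseIdx q) f)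
          + be * I (w.length - 1) (b + 1) (V 0 (w.eraseIdx q) f))
          + ∑ p ∈ range (fh w), I p (b + 1) (V 0 ((w.eraseIdx q).set p true) f)
      else if q < fh w then I q (b + 1) (V 0 (w.eraseIdx q) f) else 0 := by
  rw [I_apply, V_D_erase w 0 q hq, Nat.zero_add]
  have e1 : D 0 (w.length - 1) (z 0 * V 1 (w.eraseIdx q) (X 0 ^ b * sh f)) =
      I (w.length - 1) b (V 0 (w.eraseIdx q) f)
          + be * I (w.length - 1) (b + 1) (V 0 (w.eraseIdx q) f) := by
    rw [V_one_X_sh, I_apply, I_apply, ← D_be, ← map_add]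
    congr 1
    rw [z]; ring
  have e2 : ∀ p (w' : List Bool), D 0 p (X 0 * V 1 w' (X 0 ^ b * sh f)) =
      I p (b + 1) (V 0 w' f) := fun p w' => D_X_sh p b w' f
  simp only [e1, e2]

theorem s_sh_sh (f : R) : s 0 (sh (sh f)) = sh (sh f) := by
  unfold s sh
  simp only [rename_rename]
  congr 2

theorem P_zero_pow (b : ℕ) (f : R) :
    P 0 (X 0 ^ b * (X 1 ^ b * sh (sh f))) = X 0 ^ b * (X 1 ^ b * sh (sh f)) := by
  apply P_of_symm
  rw [map_mul, map_mul, map_pow, map_pow, s_X_self, s_sh_sh]
  rw [show (X (0 + 1) : R) = X 1 from rfl, show s 0 (X 1 : R) = X 0 from s_X_succ 0]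
  ring

theorem P_zero_pow_succ (b : ℕ) (f : R) :
    P 0 (X 0 ^ b * (X 1 ^ (b + 1) * sh (sh f))) =
      -(be * (X 0 ^ (b + 1) * (X 1 ^ (b + 1) * sh (sh f)))) := by
  have h1 : s 0 (X 0 ^ b * (X 1 ^ b * sh (sh f))) = X 0 ^ b * (X 1 ^ b * sh (sh f)) := by
    rw [map_mul, map_mul, map_pow, map_pow, s_X_self, s_sh_sh]
    rw [show (X (0 + 1) : R) = X 1 from rfl, show s 0 (X 1 : R) = X 0 from s_X_succ 0]
    ring
  have h2 : X 0 ^ b * (X 1 ^ (b + 1) * sh (sh f)) =
      (X 0 ^ b * (X 1 ^ b * sh (sh f))) * (X (0 + 1) * 1) := by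
    rw [show (X (0 + 1) : R) = X 1 from rfl]; ring
  rw [h2, P_symm_mul h1]
  have h3 := X_P 0 (1 : R)
  rw [P_one, mul_one, mul_one, z] at h3
  have h4 : P 0 (X (0 + 1) * 1 : R) = - (be * X 0 * X 1) := by
    rw [mul_one]
    rw [show (X (0 + 1) : R) = X 1 from rfl] at h3 ⊢
    linear_combination -h3
  rw [h4]; ring

theorem sh_I (r n j b : ℕ) (f : R) :
    sh (D r n (I j b f)) = D (r + 1) n (D 1 j (X 1 ^ b * sh (sh f))) := by
  rw [← D_sh, I_apply, ← D_sh, map_mul, map_pow, sh_X]

/-- The cancellation (K). -/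
theorem I_cancel {j r k l : ℕ} (hj : j < r) (hk : r ≤ k) (b : ℕ) (Y : R) :
    I k b (D r (l - r) (I j (b + 1) Y)) =
      -(be * D r (k - r) (I j (b + 1) (D r (l - r) (I (r - 1) (b + 1) Y)))) := by
  have hr : r = 1 + (r - 1) := by omega
  have hk1 : k = (k - 1) + 1 := by omega
  have e1 : I k b (D r (l - r) (I j (b + 1) Y)) =
      D 0 j (D 1 (k - 1) (D (r + 1) (l - r)
        (P 0 (X 0 ^ b * (X 1 ^ (b + 1) * sh (sh Y)))))) := by
    rw [I_apply, sh_I, ← D_X_pow (by omega), ← D_X_pow (by omega),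
      D_D_far (a := r + 1) (c := 1) (by omega), D_D (n := k) (by omega)]
    conv_lhs => rw [hk1, D_succ', ← D_P_far (k := r + 1) (by omega)]
  have e2 : D r (k - r) (I j (b + 1) (D r (l - r) (I (r - 1) (b + 1) Y))) =
      D 0 j (D 1 (k - 1) (D (r + 1) (l - r)
        (X 0 ^ (b + 1) * (X 1 ^ (b + 1) * sh (sh Y))))) := by
    rw [I_apply, sh_I, ← D_X_pow (by omega), ← D_X_pow (by omega),
      D_D_far (a := r) (by omega), D_D_far (a := r + 1) (by omega)]
    congr 1
    have h := D_add_split 1 (r - 1) (k - r) (D (r + 1) (l - r)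
        (X 0 ^ (b + 1) * (X 1 ^ (b + 1) * sh (sh Y))))
    rw [← hr, show r - 1 + (k - r) = k - 1 by omega] at h
    exact h.symm
  rw [e1, e2, P_zero_pow_succ, map_neg, map_neg, map_neg, D_be, D_be, D_be]

theorem I_I {j k : ℕ} (h : j < k) (b : ℕ) (Y : R) :
    I k b (I j b Y) = I j b (I (k - 1) b Y) := by
  have hk1 : k = (k - 1) + 1 := by omega
  have h0 := sh_I 0 0 j b Y
  have h1 := sh_I 0 0 (k - 1) b Y
  simp only [D_zero] at h0 h1
  rw [I_apply, h0, ← D_X_pow (by omega), D_D (by omega), I_apply j, h1, ← D_X_pow (by omega)]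
  conv_lhs => rw [hk1, D_succ', P_zero_pow]

/-- An entry `b+1` before position `k` kills `I k b + β I k (b+1)`. -/
theorem I_kill {j k : ℕ} (h : j < k) (b : ℕ) (Y : R) :
    I k b (I j (b + 1) Y) + be * I k (b + 1) (I j (b + 1) Y) = 0 := by
  have h1 := I_cancel (l := k) h le_rfl b Y
  rw [Nat.sub_self, D_zero, D_zero, D_zero] at h1
  rw [h1, I_I h]; ring

/-- Insert several `b`'s. -/
noncomputable def Dall (b : ℕ) : List ℕ → R → R
  | [], f => f
  | k :: ks, f => I k b (Dall b ks f)

/-- The main part of the formula for several equal maxima. -/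
noncomputable def W (r b : ℕ) (g : List Bool → R) : List ℕ → List Bool → R
  | [], w => g w
  | k :: ks, w => I k b (Dall b ks (g w))
      + ∑ j ∈ range (fh w), D r (k - r) (I j (b + 1) (W r b g ks (w.set j true)))

/-- The correction term. -/
noncomputable def S (r b : ℕ) (g : List Bool → R) : List ℕ → List Bool → R
  | [], _ => 0
  | k :: ks, w => D r (k - r) (I (r - 1) (b + 1) (W r b g ks w))

theorem V_Dall (r b : ℕ) (F : R) (ks : List ℕ) (h1 : ∀ k ∈ ks, r ≤ k)
    (w : List Bool) (hw : w.length = r) :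
    V 0 w (Dall b ks F) = W r b (fun w' => V 0 w' F) ks w
      + (if true ∈ w then be * S r b (fun w' => V 0 w' F) ks w else 0) := by
  induction ks generalizing w with
  | nil => simp [Dall, W, S]
  | cons k ks ih =>
    have hk : r ≤ k := h1 k (by simp)
    have ih' := ih (fun k hk => h1 k (by simp [hk]))
    have hwk : w.length ≤ k := by omega
    rw [Dall, V_I_ge hwk, hw]
    cases ks with
    | nil =>
      simp only [Dall, W, S]
      ring
    | cons l ks =>
      have e0 : ∀ w' : List Bool, W r b (fun w'' => V 0 w'' F) (l :: ks) w' =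
        I l b (Dall b ks (V 0 w' F)) + ∑ j ∈ range (fh w'), D r (l - r) (I j (b + 1)
          (W r b (fun w'' => V 0 w'' F) ks (w'.set j true))) := fun w' => rfl
      have e1 : ∑ j ∈ range (fh w), D r (k - r) (I j (b + 1) (V 0 (w.set j true)
            (Dall b (l :: ks) F))) =
          ∑ j ∈ range (fh w), D r (k - r) (I j (b + 1)
            (W r b (fun w' => V 0 w' F) (l :: ks) (w.set j true)))
          + ∑ j ∈ range (fh w), be * D r (k - r) (I j (b + 1)
            (S r b (fun w' => V 0 w' F) (l :: ks) (w.set j true))) := by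
        rw [← Finset.sum_add_distrib]
        apply Finset.sum_congr rfl
        intro j hj
        rw [ih' _ (by rw [List.length_set, hw]), if_pos (mem_set_of_lt_fh (Finset.mem_range.1 hj)),
          map_add, map_add, I_be, D_be]
      have e2 : I k b (W r b (fun w' => V 0 w' F) (l :: ks) w) =
          I k b (Dall b (l :: ks) (V 0 w F))
          - ∑ j ∈ range (fh w), be * D r (k - r) (I j (b + 1)
            (S r b (fun w' => V 0 w' F) (l :: ks) (w.set j true))) := by
        rw [e0, map_add, map_sum, sub_eq_add_neg, ← Finset.sum_neg_distrib, Dall]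
        congr 1
        apply Finset.sum_congr rfl
        intro j hj
        have hjr : j < r := by
          have := lt_length_of_lt_fh (Finset.mem_range.1 hj)
          omega
        rw [I_cancel hjr hk, S]
      rw [e1, ih' w hw]
      conv_rhs => rw [W, S]
      by_cases hh : true ∈ w
      · have hr : 0 < r := by rw [← hw]; exact List.length_pos_of_mem hh
        have e3 : I k b (S r b (fun w' => V 0 w' F) (l :: ks) w) =
            - (be * D r (k - r) (I (r - 1) (b + 1) (S r b (fun w' => V 0 w' F) (l :: ks) w))) := by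
          rw [S, I_cancel (by omega) hk]
        rw [if_pos hh, if_pos hh, if_pos hh, map_add, e2, I_be, e3, map_add, map_add, I_be, D_be]
        ring
      · simp only [if_neg hh, add_zero]
        rw [e2]
        ring

end Pool.Agent.Helper32.Lasc
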