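import Pool.Agent.Helper32.Lasc.Lascoux

/-! Affine families and uniform positivity. -/

namespace Pool.Agent.Helper32.Lasc

open MvPolynomial Finset Filter

/-- eventually affine sequences of natural numbers -/
def Aff1 (a : ℕ → ℕ) : Prop := ∃ c d : ℤ, ∀ᶠ N : ℕ in atTop, (a N : ℤ) = (N : ℤ) * c + d

theorem Aff1.cmp {a b : ℕ → ℕ} (ha : Aff1 a) (hb : Aff1 b) :
    (∀ᶠ N in atTop, a N < b N) ∨ (∀ᶠ N in atTop, a N = b N) ∨ (∀ᶠ N in atTop, b N < a N) := by
  obtain ⟨c, d, h1⟩ := ha
  obtain ⟨c', d', h2⟩ := hb
  rcases lt_trichotomy c c' with h | h | h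
  · left
    filter_upwards [h1, h2, eventually_gt_atTop (d - d').toNat] with N e1 e2 e3
    have h3 : d - d' < (N : ℤ) := by omega
    have h4 : (N : ℤ) * 1 ≤ (N : ℤ) * (c' - c) := by
      apply mul_le_mul_of_nonneg_left <;> omega
    have : (a N : ℤ) < b N := by rw [e1, e2]; linarith [mul_sub (N : ℤ) c' c]
    exact_mod_cast this
  · subst h
    rcases lt_trichotomy d d' with h | h | h
    · left
      filter_upwards [h1, h2] with N e1 e2
      have : (a N : ℤ) < b N := by rw [e1, e2]; linarith
      exact_mod_cast this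
    · right; left
      filter_upwards [h1, h2] with N e1 e2
      have : (a N : ℤ) = b N := by rw [e1, e2, h]
      exact_mod_cast this
    · right; right
      filter_upwards [h1, h2] with N e1 e2
      have : (b N : ℤ) < a N := by rw [e1, e2]; linarith
      exact_mod_cast this
  · right; right
    filter_upwards [h1, h2, eventually_gt_atTop (d' - d).toNat] with N e1 e2 e3
    have h3 : d' - d < (N : ℤ) := by omega
    have h4 : (N : ℤ) * 1 ≤ (N : ℤ) * (c - c') := by
      apply mul_le_mul_of_nonneg_left <;> omega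
    have : (b N : ℤ) < a N := by rw [e1, e2]; linarith [mul_sub (N : ℤ) c c']
    exact_mod_cast this

theorem Aff1.add_const {a : ℕ → ℕ} (ha : Aff1 a) (m : ℕ) : Aff1 (fun N => a N + m) := by
  obtain ⟨c, d, h1⟩ := ha
  exact ⟨c, d + m, by filter_upwards [h1] with N e1; push_cast; rw [e1]; ring⟩

theorem Aff1.const (m : ℕ) : Aff1 (fun _ => m) := ⟨0, m, by simp⟩

theorem Aff1.add {a b : ℕ → ℕ} (ha : Aff1 a) (hb : Aff1 b) : Aff1 (fun N => a N + b N) := by
  obtain ⟨c, d, h1⟩ := ha
  obtain ⟨c', d', h2⟩ := hb
  exact ⟨c + c', d + d', by filter_upwards [h1, h2] with N e1 e2; push_cast; rw [e1, e2]; ring⟩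

theorem Aff1.sub {a b : ℕ → ℕ} (ha : Aff1 a) (hb : Aff1 b) (h : ∀ᶠ N in atTop, b N ≤ a N) :
    Aff1 (fun N => a N - b N) := by
  obtain ⟨c, d, h1⟩ := ha
  obtain ⟨c', d', h2⟩ := hb
  refine ⟨c - c', d - d', ?_⟩
  filter_upwards [h1, h2, h] with N e1 e2 e3
  rw [Nat.cast_sub e3, e1, e2]; ring

/-- affine families of compositions of length `h` -/
def Aff (h : ℕ) (γ : ℕ → ℕ → ℕ) : Prop := ∀ i < h, Aff1 (fun N => γ N i)

theorem ev_all_lt {p : ℕ → ℕ → Prop} {h : ℕ} (H : ∀ i < h, ∀ᶠ N in atTop, p N i) :
    ∀ᶠ N in atTop, ∀ i < h, p N i := by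
  induction h with
  | zero => simp
  | succ h ih =>
    filter_upwards [ih (fun i hi => H i (by omega)), H h (by omega)] with N h1 h2 i hi
    by_cases h3 : i = h
    · subst h3; exact h2
    · exact h1 i (by omega)

theorem exists_leftmost {h : ℕ} {α : ℕ → ℕ → ℕ} (hα : Aff (h + 1) α) :
    ∃ q, q ≤ h ∧ (∀ᶠ N in atTop, ∀ i ≤ h, α N i ≤ α N q) ∧
      (∀ᶠ N in atTop, ∀ i < q, α N i < α N q) := by
  induction h with
  | zero =>
    exact ⟨0, le_rfl, Eventually.of_forall (fun N i hi => by
      have : i = 0 := by omega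
      subst this; exact le_rfl), Eventually.of_forall (fun N i hi => by omega)⟩
  | succ h ih =>
    obtain ⟨q, hq, h1, h2⟩ := ih (fun i hi => hα i (by omega))
    have hle : (∀ᶠ N in atTop, α N (h + 1) ≤ α N q) →
      ∃ q, q ≤ h + 1 ∧ (∀ᶠ N in atTop, ∀ i ≤ h + 1, α N i ≤ α N q) ∧
      (∀ᶠ N in atTop, ∀ i < q, α N i < α N q) := by
      intro h3
      refine ⟨q, by omega, ?_, h2⟩
      filter_upwards [h1, h3] with N e1 e3 i hi
      by_cases h4 : i = h + 1
      · subst h4; exact e3
      · exact e1 i (by omega)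
    rcases Aff1.cmp (hα q (by omega)) (hα (h + 1) (by omega)) with h3 | h3 | h3
    · refine ⟨h + 1, le_rfl, ?_, ?_⟩
      · filter_upwards [h1, h3] with N e1 e3 i hi
        by_cases h4 : i = h + 1
        · subst h4; exact le_rfl
        · exact (e1 i (by omega)).trans e3.le
      · filter_upwards [h1, h3] with N e1 e3 i hi
        exact lt_of_le_of_lt (e1 i (by omega)) e3
    · exact hle (by filter_upwards [h3] with N e; omega)
    · exact hle (by filter_upwards [h3] with N e; omega)

theorem Aff.ins {h k : ℕ} {γ : ℕ → ℕ → ℕ} {c : ℕ → ℕ} (hγ : Aff h γ) (hc : Aff1 c) (hk : k ≤ h) :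
    Aff (h + 1) (fun N => ins k (c N) (γ N)) := by
  intro i hi
  show Aff1 (fun N => if i < k then γ N i else if i = k then c N else γ N (i - 1))
  split_ifs
  · exact hγ i (by omega)
  · exact hc
  · exact hγ _ (by omega)

theorem Aff.del {h q : ℕ} {γ : ℕ → ℕ → ℕ} (hγ : Aff (h + 1) γ) :
    Aff h (fun N => del q (γ N)) := by
  intro i hi
  show Aff1 (fun N => if i < q then γ N i else γ N (i + 1))
  split_ifs
  · exact hγ i (by omega)
  · exact hγ _ (by omega)

theorem Aff.swp {h i : ℕ} {γ : ℕ → ℕ → ℕ} (hγ : Aff h γ) (hi : i + 1 < h) :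
    Aff h (fun N => swp i (γ N)) := by
  intro j hj
  by_cases h1 : j = i
  · subst h1; simp only [swp_self]; exact hγ _ hi
  · by_cases h2 : j = i + 1
    · subst h2; simp only [swp_succ]; exact hγ _ (by omega)
    · simp only [swp_other h1 h2]; exact hγ _ hj

/-- uniformly positive sequences: eventually a fixed nonnegative combination of Lascoux
polynomials of affine families satisfying `p`. -/
def Pos (h : ℕ) (p : (ℕ → ℕ → ℕ) → Prop) (f : ℕ → R) : Prop :=
  ∃ l : List (ℕ × (ℕ → ℕ → ℕ)), (∀ t ∈ l, Aff h t.2 ∧ p t.2) ∧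
    ∀ᶠ N in atTop, f N = (l.map (fun t => be ^ t.1 * L h (t.2 N))).sum

section PosLemmas

variable {h h' : ℕ} {p p' : (ℕ → ℕ → ℕ) → Prop} {f g : ℕ → R}

theorem Pos.congr (hf : Pos h p f) (H : ∀ᶠ N in atTop, g N = f N) : Pos h p g := by
  obtain ⟨l, h1, h2⟩ := hf
  exact ⟨l, h1, by filter_upwards [h2, H] with N e1 e2; rw [e2, e1]⟩

theorem Pos.zero : Pos h p (fun _ => 0) := ⟨[], by simp, by simp⟩

theorem Pos.add (hf : Pos h p f) (hg : Pos h p g) : Pos h p (fun N => f N + g N) := by
  obtain ⟨l, h1, h2⟩ := hf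
  obtain ⟨l', h1', h2'⟩ := hg
  refine ⟨l ++ l', ?_, ?_⟩
  · intro t ht
    rcases List.mem_append.1 ht with h | h
    · exact h1 t h
    · exact h1' t h
  · filter_upwards [h2, h2'] with N e1 e2
    rw [List.map_append, List.sum_append, e1, e2]

theorem Pos.sum {n : ℕ} {F : ℕ → ℕ → R} (H : ∀ j < n, Pos h p (fun N => F N j)) :
    Pos h p (fun N => ∑ j ∈ range n, F N j) := by
  induction n with
  | zero => simpa using Pos.zero
  | succ n ih =>
    have := (ih (fun j hj => H j (by omega))).add (H n (by omega))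
    simpa [Finset.sum_range_succ] using this

theorem Pos.be_mul (hf : Pos h p f) : Pos h p (fun N => be * f N) := by
  obtain ⟨l, h1, h2⟩ := hf
  refine ⟨l.map (fun t => (t.1 + 1, t.2)), ?_, ?_⟩
  · intro t ht
    obtain ⟨t', ht', rfl⟩ := List.mem_map.1 ht
    exact h1 t' ht'
  · filter_upwards [h2] with N e1
    rw [e1, List.map_map, ← List.sum_map_mul_left]
    congr 1
    apply List.map_congr_left
    intro t _
    simp only [Function.comp_apply]
    ring

theorem Pos.mono (hf : Pos h p f) (H : ∀ γ, Aff h γ → p γ → p' γ) : Pos h p' f := by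
  obtain ⟨l, h1, h2⟩ := hf
  exact ⟨l, fun t ht => ⟨(h1 t ht).1, H _ (h1 t ht).1 (h1 t ht).2⟩, h2⟩

theorem Pos.base {γ : ℕ → ℕ → ℕ} (hγ : Aff h γ) (hp : p γ) : Pos h p (fun N => L h (γ N)) :=
  ⟨[(0, γ)], by simp [hγ, hp], by simp⟩

theorem be_pow_smul (e : ℕ) (f : R) : be ^ e * f = (Polynomial.X ^ e : Polynomial ℤ) • f := by
  unfold be
  rw [MvPolynomial.smul_eq_C_mul, map_pow]

theorem Pos.bind (hf : Pos h p f) (T : ℕ → R →ₗ[Polynomial ℤ] R)
    (H : ∀ γ, Aff h γ → p γ → Pos h' p' (fun N => T N (L h (γ N)))) :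
    Pos h' p' (fun N => T N (f N)) := by
  obtain ⟨l, h1, h2⟩ := hf
  have key : ∀ l : List (ℕ × (ℕ → ℕ → ℕ)), (∀ t ∈ l, Aff h t.2 ∧ p t.2) →
      Pos h' p' (fun N => T N ((l.map (fun t => be ^ t.1 * L h (t.2 N))).sum)) := by
    intro l
    induction l with
    | nil => intro _; simpa using Pos.zero
    | cons t l ih =>
      intro hl
      have h3 := ih (fun t' ht' => hl t' (by simp [ht']))
      have h4 := H t.2 (hl t (by simp)).1 (hl t (by simp)).2
      have h5 : ∀ e : ℕ, Pos h' p' (fun N => be ^ e * T N (L h (t.2 N))) := by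
        intro e
        induction e with
        | zero => simpa using h4
        | succ e ihe =>
          refine ihe.be_mul.congr (Eventually.of_forall fun N => ?_)
          ring
      refine ((h5 t.1).add h3).congr (Eventually.of_forall fun N => ?_)
      rw [List.map_cons, List.sum_cons, map_add, be_pow_smul, map_smul, be_pow_smul]
  refine (key l h1).congr ?_
  filter_upwards [h2] with N e
  rw [e]

end PosLemmas

/-- all entries `≤ b` -/
def leb (h : ℕ) (b : ℕ → ℕ) (γ : ℕ → ℕ → ℕ) : Prop := ∀ᶠ N in atTop, ∀ i < h, γ N i ≤ b N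

/-- entries `≤ b + 1` at positions `< r`, entries `≤ b` elsewhere -/
def bd (h r : ℕ) (b : ℕ → ℕ) (γ : ℕ → ℕ → ℕ) : Prop :=
  ∀ᶠ N in atTop, ∀ i < h, γ N i ≤ b N + if i < r then 1 else 0

theorem bd_mono {h r r' : ℕ} {b : ℕ → ℕ} {γ : ℕ → ℕ → ℕ} (hr : r ≤ r') (H : bd h r b γ) :
    bd h r' b γ := by
  filter_upwards [H] with N e i hi
  have := e i hi
  split_ifs at this ⊢ <;> omega

theorem leb_bd {h r : ℕ} {b : ℕ → ℕ} {γ : ℕ → ℕ → ℕ} (H : leb h b γ) : bd h r b γ := by
  filter_upwards [H] with N e i hi
  have := e i hi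
  split_ifs <;> omega

theorem Pos_ins {h k : ℕ} {p p' : (ℕ → ℕ → ℕ) → Prop} {f : ℕ → R} {c : ℕ → ℕ} (hc : Aff1 c)
    (hk : k ≤ h) (hf : Pos h p f) (H1 : ∀ γ, Aff h γ → p γ → leb h c γ)
    (H2 : ∀ γ, Aff h γ → p γ → p' (fun N => ins k (c N) (γ N))) :
    Pos (h + 1) p' (fun N => I k (c N) (f N)) := by
  refine hf.bind (fun N => I k (c N)) ?_
  intro γ hγ hp
  refine (Pos.base (hγ.ins hc hk) (H2 γ hγ hp)).congr ?_
  filter_upwards [H1 γ hγ hp] with N e
  rw [L_ins e hk]

/-- insertion of `b` among entries `≤ b` -/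
theorem Pos_ins_leb {h k : ℕ} {f : ℕ → R} {b : ℕ → ℕ} (hb : Aff1 b)
    (hk : k ≤ h) (hf : Pos h (leb h b) f) : Pos (h + 1) (leb (h + 1) b) (fun N => I k (b N) (f N)) := by
  refine Pos_ins hb hk hf (fun γ _ hp => hp) (fun γ _ hp => ?_)
  filter_upwards [hp] with N e
  exact ins_le e le_rfl hk

/-- insertion of `b + 1` at a position `k ≤ r` among `bd r` entries gives `bd (r+1)` -/
theorem Pos_ins_succ {h k r : ℕ} {f : ℕ → R} {b : ℕ → ℕ} (hb : Aff1 b)
    (hk : k ≤ h) (hkr : k ≤ r) (hf : Pos h (bd h r b) f) :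
    Pos (h + 1) (bd (h + 1) (r + 1) b) (fun N => I k (b N + 1) (f N)) := by
  refine Pos_ins (hb.add_const 1) hk hf (fun γ _ hp => ?_) (fun γ _ hp => ?_)
  · filter_upwards [hp] with N e i hi
    have := e i hi
    split_ifs at this <;> omega
  · filter_upwards [hp] with N e i hi
    by_cases h1 : i < k
    · rw [ins_lt h1]
      have := e i (by omega)
      split_ifs at this ⊢ <;> omega
    · by_cases h2 : i = k
      · subst h2; rw [ins_self, if_pos (by omega)]
      · rw [ins_gt (by omega)]
        have := e (i - 1) (by omega)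
        split_ifs at this ⊢ <;> omega

theorem Pos_P {h i : ℕ} {p : (ℕ → ℕ → ℕ) → Prop} {f : ℕ → R} (hi : i + 1 < h)
    (hf : Pos h p f) (H : ∀ γ, Aff h γ → p γ → p (fun N => swp i (γ N))) :
    Pos h p (fun N => P i (f N)) := by
  refine hf.bind (fun _ => P i) ?_
  intro γ hγ hp
  have hle : (∀ᶠ N in atTop, γ N i ≤ γ N (i + 1)) → Pos h p (fun N => P i (L h (γ N))) := by
    intro h1
    refine (Pos.base hγ hp).congr ?_
    filter_upwards [h1] with N e
    rw [P_L hi, srt, if_neg (by omega)]
  rcases Aff1.cmp (hγ i (by omega)) (hγ (i + 1) hi) with h1 | h1 | h1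
  · exact hle (by filter_upwards [h1] with N e; omega)
  · exact hle (by filter_upwards [h1] with N e; omega)
  · refine (Pos.base (hγ.swp hi) (H γ hγ hp)).congr ?_
    filter_upwards [h1] with N e
    rw [P_L hi, srt, if_pos e]

theorem Pos_P_bd {h i r : ℕ} {b : ℕ → ℕ} {f : ℕ → R} (hi : i + 1 < h) (hr : r ≤ i)
    (hf : Pos h (bd h r b) f) : Pos h (bd h r b) (fun N => P i (f N)) := by
  refine Pos_P hi hf (fun γ _ hp => ?_)
  filter_upwards [hp] with N e j hj
  by_cases h1 : j = i
  · subst h1
    rw [swp_self]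
    have := e (j + 1) hi
    split_ifs at this ⊢ <;> omega
  · by_cases h2 : j = i + 1
    · subst h2
      rw [swp_succ]
      have := e i (by omega)
      split_ifs at this ⊢ <;> omega
    · rw [swp_other h1 h2]; exact e j hj

theorem Pos_D_bd {h r r' n : ℕ} {b : ℕ → ℕ} {f : ℕ → R} (hi : r' + n < h) (hr : r ≤ r')
    (hf : Pos h (bd h r b) f) : Pos h (bd h r b) (fun N => D r' n (f N)) := by
  induction n with
  | zero => simpa using hf
  | succ n ih =>
    simp only [D_succ]
    exact Pos_P_bd (by omega) (by omega) (ih (by omega))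

/-- validity of a list of insertion positions -/
def Valid (h0 : ℕ) : List ℕ → Prop
  | [] => True
  | k :: ks => k ≤ h0 + ks.length ∧ Valid h0 ks

theorem Pos_Dall {h0 : ℕ} {b : ℕ → ℕ} (hb : Aff1 b) {f : ℕ → R} (hf : Pos h0 (leb h0 b) f)
    (ks : List ℕ) (hks : Valid h0 ks) :
    Pos (h0 + ks.length) (leb (h0 + ks.length) b) (fun N => Dall (b N) ks (f N)) := by
  induction ks with
  | nil => simpa [Dall] using hf
  | cons k ks ih =>
    have := Pos_ins_leb hb hks.1 (ih hks.2)
    exact this

theorem Pos_W {h0 r : ℕ} {b : ℕ → ℕ} (hb : Aff1 b) {g : ℕ → List Bool → R}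
    (hg : ∀ w : List Bool, w.length = r → Pos h0 (leb h0 b) (fun N => g N w))
    (ks : List ℕ) (hks : Valid h0 ks) (hr : ∀ k ∈ ks, r ≤ k) (w : List Bool) (hw : w.length = r)
    (hrh : r ≤ h0) :
    Pos (h0 + ks.length) (bd (h0 + ks.length) (fh w) b) (fun N => W r (b N) (g N) ks w) := by
  induction ks generalizing w with
  | nil =>
    refine (hg w hw).mono (fun γ _ hp => leb_bd hp)
  | cons k ks ih =>
    have ih' := ih hks.2 (fun k hk => hr k (by simp [hk]))
    have h1 := (Pos_Dall hb (hg w hw) (k :: ks) hks).mono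
      (p' := bd (h0 + (k :: ks).length) (fh w) b) (fun γ _ hp => leb_bd hp)
    refine h1.add (Pos.sum fun j hj => ?_)
    have hjl := lt_length_of_lt_fh hj
    have h2 := ih' (w.set j true) (by rw [List.length_set, hw])
    rw [fh_set hj] at h2
    have h3 := Pos_ins_succ hb (k := j) (by omega) le_rfl h2
    have h4 := h3.mono (p' := bd (h0 + ks.length + 1) (fh w) b)
      (fun γ _ hp => bd_mono (by omega) hp)
    have hkr := hr k (by simp)
    have hk1 : k ≤ h0 + ks.length := hks.1
    have hfl := fh_le w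
    exact Pos_D_bd (r' := r) (n := k - r) (h := h0 + ks.length + 1) (by omega) (by omega) h4

theorem Pos_S {h0 r : ℕ} {b : ℕ → ℕ} (hb : Aff1 b) {g : ℕ → List Bool → R}
    (hg : ∀ w : List Bool, w.length = r → Pos h0 (leb h0 b) (fun N => g N w))
    (ks : List ℕ) (hks : Valid h0 ks) (hr : ∀ k ∈ ks, r ≤ k) (w : List Bool) (hw : w.length = r)
    (hrh : r ≤ h0) (hole : true ∈ w) :
    Pos (h0 + ks.length) (bd (h0 + ks.length) r b) (fun N => S r (b N) (g N) ks w) := by
  cases ks with
  | nil => exact Pos.zero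
  | cons k ks =>
    have h2 := Pos_W hb hg ks hks.2 (fun k hk => hr k (by simp [hk])) w hw hrh
    have hfl := fh_lt hole
    have h2' := h2.mono (p' := bd (h0 + ks.length) (r - 1) b)
      (fun γ _ hp => bd_mono (by omega) hp)
    have h3 := Pos_ins_succ hb (k := r - 1) (by omega) le_rfl h2'
    rw [show r - 1 + 1 = r by omega] at h3
    have hkr := hr k (by simp)
    have hk1 : k ≤ h0 + ks.length := hks.1
    exact Pos_D_bd (r' := r) (n := k - r) (h := h0 + ks.length + 1) (by omega) le_rfl h3

/-- extraction of all maxima -/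
theorem extract {b : ℕ → ℕ} (hb : Aff1 b) {r : ℕ} (h : ℕ) (hr : r ≤ h) (α : ℕ → ℕ → ℕ)
    (hα : Aff h α) (h1 : leb h b α) (h2 : ∀ i < r, ∀ᶠ N in atTop, α N i < b N) :
    ∃ (h0 : ℕ) (ks : List ℕ) (F : ℕ → ℕ → ℕ), h = h0 + ks.length ∧ r ≤ h0 ∧ Valid h0 ks ∧
      (∀ k ∈ ks, r ≤ k) ∧ Aff h0 F ∧ (∀ᶠ N in atTop, ∀ i < h0, F N i < b N) ∧
      (∀ᶠ N in atTop, L h (α N) = Dall (b N) ks (L h0 (F N))) ∧
      (ks = [] → ∀ᶠ N in atTop, ∀ i < h, α N i < b N) := by
  induction h generalizing α with
  | zero =>
    exact ⟨0, [], α, rfl, hr, trivial, by simp, hα, by simp, by simp [Dall], by simp⟩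
  | succ h ih =>
    obtain ⟨q, hq, hmax, hleft⟩ := exists_leftmost hα
    rcases Aff1.cmp (hα q (by omega)) hb with h3 | h3 | h3
    · -- all entries < b
      have hall : ∀ᶠ N in atTop, ∀ i < h + 1, α N i < b N := by
        filter_upwards [h3, hmax] with N e1 e2 i hi
        exact lt_of_le_of_lt (e2 i (by omega)) e1
      exact ⟨h + 1, [], α, rfl, hr, trivial, by simp, hα, hall, by simp [Dall], fun _ => hall⟩
    · -- `α q = b`
      have hqr : r ≤ q := by
        by_contra hlt
        push Not at hlt
        obtain ⟨N, e1, e2⟩ := ((h2 q hlt).and h3).exists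
        omega
      obtain ⟨h0, ks, F, e1, e2, e3, e4, e5, e6, e7, -⟩ := ih (by omega) (fun N => del q (α N))
        hα.del (by
          filter_upwards [h1] with N e i hi
          unfold del
          split_ifs
          · exact e i (by omega)
          · exact e _ (by omega)) (by
          intro i hi
          filter_upwards [h2 i hi] with N e
          rw [del_lt (by omega)]; exact e)
      refine ⟨h0, q :: ks, F, by simp; omega, e2, ⟨by omega, e3⟩, ?_, e5, e6, ?_, by simp⟩
      · intro k hk
        rcases List.mem_cons.1 hk with rfl | hk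
        · exact hqr
        · exact e4 k hk
      · filter_upwards [e7, h3, hmax] with N f1 f2 f3
        rw [L_del hq f3, f1, f2]; rfl
    · exfalso
      obtain ⟨N, e1, e2⟩ := (h1.and h3).exists
      have := e1 q (by omega)
      omega

/-- **Theorem A** for affine families. -/
theorem Pos_V (h : ℕ) : ∀ (α : ℕ → ℕ → ℕ) (_ : Aff h α) (b : ℕ → ℕ) (_ : leb h b α)
    (w : List Bool) (_ : w.length ≤ h),
    Pos h (bd h w.length b) (fun N => V 0 w (L h (α N))) := by
  induction h using Nat.strong_induction_on with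
  | _ h ih =>
  intro α hα b hb w hw
  cases w with
  | nil =>
    exact (Pos.base hα (leb_bd hb))
  | cons a0 w0 =>
  obtain ⟨w, hwdef⟩ : ∃ w, w = a0 :: w0 := ⟨_, rfl⟩
  rw [← hwdef] at hw ⊢
  have hwpos : 0 < w.length := by rw [hwdef]; simp
  obtain ⟨h, rfl⟩ : ∃ h', h = h' + 1 := ⟨h - 1, by omega⟩
  obtain ⟨q, hq, hmax, hleft⟩ := exists_leftmost hα
  -- the maximum
  obtain ⟨c, hc⟩ : ∃ c : ℕ → ℕ, c = fun N => α N q := ⟨_, rfl⟩
  have hcA : Aff1 c := by rw [hc]; exact hα q (by omega)
  have hcb : ∀ᶠ N in atTop, c N ≤ b N := by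
    filter_upwards [hb] with N e
    rw [hc]; exact e q (by omega)
  suffices hs : Pos (h + 1) (bd (h + 1) w.length c) (fun N => V 0 w (L (h + 1) (α N))) by
    refine hs.mono (fun γ _ hp => ?_)
    filter_upwards [hp, hcb] with N e1 e2 i hi
    have := e1 i hi
    omega
  by_cases hqr : q < w.length
  · -- a maximum at a position `< r`
    have hg : ∀ w' : List Bool, w'.length = w.length - 1 →
        Pos h (bd h (w.length - 1) c) (fun N => V 0 w' (L h (del q (α N)))) := by
      intro w' hw'
      have := ih h (by omega) (fun N => del q (α N)) hα.del c (by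
        filter_upwards [hmax] with N e i hi
        rw [hc]
        unfold del
        split_ifs
        · exact e i (by omega)
        · exact e _ (by omega)) w' (by omega)
      rw [hw'] at this; exact this
    have hlen : (w.eraseIdx q).length = w.length - 1 := by
      rw [List.length_eraseIdx, if_pos hqr]
    have hev : ∀ᶠ N in atTop, V 0 w (L (h + 1) (α N)) = V 0 w (I q (c N) (L h (del q (α N)))) := by
      filter_upwards [hmax] with N e
      rw [L_del hq e, hc]
    refine Pos.congr (f := fun N => V 0 w (I q (c N) (L h (del q (α N))))) ?_ hev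
    simp only [V_I_lt hqr]
    have hw1 : w.length - 1 + 1 = w.length := by omega
    split_ifs with hA hB
    · refine Pos.add ?_ (Pos.sum fun j hj => ?_)
      · refine (hg _ hlen).bind
          (fun N => I (w.length - 1) (c N) + (Polynomial.X : Polynomial ℤ) • I (w.length - 1) (c N + 1))
          (p' := bd (h + 1) w.length c) (h' := h + 1) ?_ |>.congr ?_
        · intro γ hγ hp
          have hbe : ∀ (T : R →ₗ[Polynomial ℤ] R) (f : R),
              ((Polynomial.X : Polynomial ℤ) • T) f = be * T f := by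
            intro T f
            have := be_pow_smul 1 (T f)
            rw [pow_one, pow_one] at this
            rw [this]; rfl
          by_cases hk : ∃ j < w.length - 1, ∀ᶠ N in atTop, γ N j = c N + 1
          · obtain ⟨j, hj, hev⟩ := hk
            refine Pos.zero.congr ?_
            filter_upwards [hev, hp] with N e1 e2
            obtain ⟨h2, rfl⟩ : ∃ h2, h = h2 + 1 := ⟨h - 1, by omega⟩
            have hm : ∀ i ≤ h2, γ N i ≤ γ N j := by
              intro i hi
              have := e2 i (by omega)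
              rw [e1]
              split_ifs at this <;> omega
            rw [L_del (by omega) hm, e1, LinearMap.add_apply, hbe, I_kill hj]
          · have hk' : ∀ j < w.length - 1, ¬ ∀ᶠ N in atTop, γ N j = c N + 1 :=
              fun j hj h => hk ⟨j, hj, h⟩
            have hle : leb h c γ := by
              have h5 : ∀ i < h, ∀ᶠ N in atTop, γ N i ≤ c N := by
                intro i hi
                by_cases hi2 : i < w.length - 1
                · rcases Aff1.cmp (hγ i hi) (hcA.add_const 1) with h6 | h6 | h6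
                  · filter_upwards [h6] with N e; omega
                  · exact absurd h6 (hk' i hi2)
                  · exfalso
                    obtain ⟨N, e1, e2⟩ := (hp.and h6).exists
                    have := e1 i hi
                    split_ifs at this <;> omega
                · filter_upwards [hp] with N e
                  have := e i hi
                  rw [if_neg hi2] at this
                  exact this
              exact ev_all_lt h5
            have p1 : Pos (h + 1) (bd (h + 1) w.length c)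
                (fun N => I (w.length - 1) (c N) (L h (γ N))) :=
              (Pos_ins_leb hcA (by omega) (Pos.base hγ hle)).mono (fun γ _ hp => leb_bd hp)
            have p2 : Pos (h + 1) (bd (h + 1) w.length c)
                (fun N => I (w.length - 1) (c N + 1) (L h (γ N))) := by
              have := Pos_ins_succ hcA (k := w.length - 1) (r := w.length - 1) (by omega) le_rfl
                (Pos.base hγ (leb_bd hle))
              rw [hw1] at this; exact this
            refine (p1.add p2.be_mul).congr (Eventually.of_forall fun N => ?_)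
            rw [LinearMap.add_apply, hbe]
        · refine Eventually.of_forall fun N => ?_
          have hbe : ∀ (T : R →ₗ[Polynomial ℤ] R) (f : R),
              ((Polynomial.X : Polynomial ℤ) • T) f = be * T f := by
            intro T f
            have := be_pow_smul 1 (T f)
            rw [pow_one, pow_one] at this
            rw [this]; rfl
          rw [LinearMap.add_apply, hbe]
      · have hjl := lt_length_of_lt_fh hj
        have := Pos_ins_succ hcA (k := j) (r := w.length - 1) (by omega) (by omega)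
          (hg ((w.eraseIdx q).set j true) (by rw [List.length_set, hlen]))
        rw [hw1] at this; exact this
    · have := Pos_ins_succ hcA (k := q) (r := w.length - 1) (by omega) (by omega) (hg _ hlen)
      rw [hw1] at this; exact this
    · exact Pos.zero
  · -- all maxima at positions `≥ r`
    push Not at hqr
    obtain ⟨h0, ks, F, e1, e2, e3, e4, e5, e6, e7, e8⟩ := extract hcA (r := w.length) (h + 1) hw α hα
      (by filter_upwards [hmax] with N e i hi
          rw [hc]; exact e i (by omega))
      (by intro i hi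
          filter_upwards [hleft] with N e
          rw [hc]; exact e i (by omega))
    have hks : 0 < ks.length := by
      by_contra h0'
      have hnil : ks = [] := List.eq_nil_of_length_eq_zero (by omega)
      obtain ⟨N, e⟩ := (e8 hnil).exists
      have := e q (by omega)
      rw [hc] at this
      exact lt_irrefl _ this
    have hg : ∀ w' : List Bool, w'.length = w.length →
        Pos h0 (leb h0 c) (fun N => V 0 w' (L h0 (F N))) := by
      intro w' hw'
      have hcpos : ∀ᶠ N in atTop, 1 ≤ c N := by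
        filter_upwards [e6] with N e
        have := e 0 (by omega)
        omega
      have := ih h0 (by omega) F e5 (fun N => c N - 1) (by
        filter_upwards [e6] with N e i hi
        have := e i hi
        omega) w' (by omega)
      refine this.mono (fun γ _ hp => ?_)
      filter_upwards [hp, hcpos] with N f1 f2 i hi
      have := f1 i hi
      split_ifs at this <;> omega
    have hV : ∀ᶠ N in atTop, V 0 w (L (h + 1) (α N)) =
        W w.length (c N) (fun w' => V 0 w' (L h0 (F N))) ks w
        + (if true ∈ w then be * S w.length (c N) (fun w' => V 0 w' (L h0 (F N))) ks w else 0) := by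
      filter_upwards [e7] with N e
      rw [e, V_Dall w.length (c N) _ ks e4 w rfl]
    refine Pos.congr (f := fun N => W w.length (c N) (fun w' => V 0 w' (L h0 (F N))) ks w
        + (if true ∈ w then be * S w.length (c N) (fun w' => V 0 w' (L h0 (F N))) ks w else 0))
        ?_ hV
    rw [e1]
    refine Pos.add ?_ ?_
    · exact (Pos_W hcA (g := fun N w' => V 0 w' (L h0 (F N))) hg ks e3 e4 w rfl e2).mono
        (fun γ _ hp => bd_mono (fh_le w) hp)
    · by_cases hh : true ∈ w
      · simp only [if_pos hh]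
        exact (Pos_S hcA (g := fun N w' => V 0 w' (L h0 (F N))) hg ks e3 e4 w rfl e2 hh).be_mul
      · simp only [if_neg hh]
        exact Pos.zero

end Pool.Agent.Helper32.Lasc
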