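import Pool.Agent.Helper32.Lasc.Fam

/-! Canonical Grothendieck polynomials of codes. -/

namespace Pool.Agent.Helper32.Lasc

open MvPolynomial Finset Filter

/-- `U p n = P_p P_{p+1} ⋯ P_{p+n-1}` -/
noncomputable def U (p : ℕ) : ℕ → (R →ₗ[Polynomial ℤ] R)
  | 0 => LinearMap.id
  | n + 1 => (U p n).comp (P (p + n))

@[simp] theorem U_zero (p : ℕ) (f : R) : U p 0 f = f := rfl
theorem U_succ (p n : ℕ) (f : R) : U p (n + 1) f = U p n (P (p + n) f) := rfl
theorem U_succ' (p n : ℕ) (f : R) : U p (n + 1) f = P p (U (p + 1) n f) := by
  induction n generalizing f with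
  | zero => simp [U_succ]
  | succ n ih => rw [U_succ, ih, U_succ, show p + (n + 1) = p + 1 + n by omega]

theorem U_X {p n j : ℕ} (h : j < p) (f : R) : U p n (X j * f) = X j * U p n f := by
  induction n generalizing f with
  | zero => rfl
  | succ n ih => rw [U_succ, X_P_comm (by omega) (by omega), ih, U_succ]

theorem U_e {p n k : ℕ} (h : p + n < k ∨ k ≤ p) (f : R) : U p n (e k * f) = e k * U p n f := by
  induction n generalizing f with
  | zero => rfl
  | succ n ih => rw [U_succ, P_e (by omega), ih (by omega), U_succ]

theorem U_e_pow {p n k : ℕ} (h : p + n < k ∨ k ≤ p) (m : ℕ) (f : R) :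
    U p n (e k ^ m * f) = e k ^ m * U p n f := by
  induction m generalizing f with
  | zero => simp
  | succ m ih => rw [pow_succ, mul_assoc, ih, U_e h, mul_assoc]

theorem Q_U_far {p n i : ℕ} (h : i + 2 ≤ p) (f : R) : Q i (U p n f) = U p n (Q i f) := by
  induction n generalizing f with
  | zero => rfl
  | succ n ih => rw [U_succ, ih, QP_comm (by omega), U_succ]

theorem P_U_far {p n i : ℕ} (h : p + n + 1 ≤ i) (f : R) : P i (U p n f) = U p n (P i f) := by
  induction n generalizing f with
  | zero => rfl
  | succ n ih => rw [U_succ, ih (by omega), P_comm (by omega), U_succ]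

theorem Q_U {p n i : ℕ} (h1 : p ≤ i) (h2 : i + 2 ≤ p + n) (f : R) :
    Q (i + 1) (U p n f) = U p n (Q i f) := by
  induction n generalizing p f with
  | zero => omega
  | succ n ih =>
    by_cases h : i = p
    · subst h
      obtain ⟨n, rfl⟩ : ∃ m, n = m + 1 := ⟨n - 1, by omega⟩
      rw [U_succ', U_succ', QPP, Q_U_far (by omega), ← U_succ', ← U_succ']
    · rw [U_succ', QP_comm (by omega), ih (by omega) (by omega), ← U_succ']

theorem Q_e_pow {i n : ℕ} (h : i + 1 < n ∨ n ≤ i) (m : ℕ) (f : R) :
    Q i (e n ^ m * f) = e n ^ m * Q i f :=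
  Q_symm_mul (by rw [map_pow, s_e h]) f

theorem P_e_pow {i n : ℕ} (h : i + 1 < n ∨ n ≤ i) (m : ℕ) (f : R) :
    P i (e n ^ m * f) = e n ^ m * P i f :=
  P_symm_mul (by rw [map_pow, s_e h]) f

theorem exists_gm (h : ℕ) (c : ℕ → ℕ) : ∃ p, p ≤ h ∧ ∀ i ≤ h, c p ≤ c i := by
  obtain ⟨q, hq, hm⟩ := Finset.exists_min_image (range (h + 1)) c ⟨0, by simp⟩
  exact ⟨q, by simpa [Nat.lt_succ_iff] using hq, fun i hi => hm i (by simpa [Nat.lt_succ_iff] using hi)⟩

/-- leftmost minimum on `[0,h]` -/
noncomputable def gm (h : ℕ) (c : ℕ → ℕ) : ℕ := by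
  classical exact Nat.find (exists_gm h c)

theorem gm_le (h : ℕ) (c : ℕ → ℕ) : gm h c ≤ h := by
  classical exact (Nat.find_spec (exists_gm h c)).1

theorem gm_min {h : ℕ} {c : ℕ → ℕ} {i : ℕ} (hi : i ≤ h) : c (gm h c) ≤ c i := by
  classical exact (Nat.find_spec (exists_gm h c)).2 i hi

theorem gm_lt {h : ℕ} {c : ℕ → ℕ} {i : ℕ} (hi : i < gm h c) : c (gm h c) < c i := by
  classical
  by_contra hc
  push Not at hc
  exact Nat.find_min (exists_gm h c) (m := i) hi
    ⟨(le_of_lt hi).trans (gm_le h c), fun j hj => hc.trans (gm_min hj)⟩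

theorem gm_eq {h q : ℕ} {c : ℕ → ℕ} (h1 : q ≤ h) (h2 : ∀ i ≤ h, c q ≤ c i)
    (h3 : ∀ i < q, c q < c i) : gm h c = q := by
  rcases lt_trichotomy (gm h c) q with hl | hl | hl
  · have := h3 _ hl
    have := gm_min (c := c) h1
    omega
  · exact hl
  · have := gm_lt (h := h) (c := c) hl
    have := h2 _ (gm_le h c)
    omega

/-- the reduced code -/
def red (p m : ℕ) (c : ℕ → ℕ) : ℕ → ℕ := fun i => if i < p then c i - m - 1 else c (i + 1) - m

/-- The canonical Grothendieck polynomial of the code `c` restricted to `[0,h)`. -/
noncomputable def Gr : ℕ → (ℕ → ℕ) → R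
  | 0, _ => 1
  | h + 1, c => U (gm h c) (h - gm h c)
      (e (h + 1) ^ (c (gm h c)) * (e (gm h c) * Gr h (red (gm h c) (c (gm h c)) c)))

theorem Gr_succ (h : ℕ) (c : ℕ → ℕ) : Gr (h + 1) c = U (gm h c) (h - gm h c)
      (e (h + 1) ^ (c (gm h c)) * (e (gm h c) * Gr h (red (gm h c) (c (gm h c)) c))) := rfl

theorem Gr_congr {h : ℕ} {c d : ℕ → ℕ} (H : ∀ i < h, c i = d i) : Gr h c = Gr h d := by
  induction h generalizing c d with
  | zero => rfl
  | succ h ih =>
    have h1 : gm h c = gm h d := by
      apply gm_eq (gm_le h d)
      · intro i hi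
        rw [H i (by omega), H _ (Nat.lt_succ_of_le (gm_le h d))]
        exact gm_min hi
      · intro i hi
        rw [H i (by have := gm_le h d; omega), H _ (Nat.lt_succ_of_le (gm_le h d))]
        exact gm_lt hi
    rw [Gr_succ, Gr_succ, h1, H _ (Nat.lt_succ_of_le (gm_le h d))]
    congr 3
    apply ih
    intro i hi
    unfold red
    split_ifs
    · rw [H i (by omega)]
    · rw [H (i + 1) (by omega)]

/-- the code of `w s_i` in terms of the code of `w` (inverse direction) -/
def up (i : ℕ) (c : ℕ → ℕ) : ℕ → ℕ :=
  fun j => if j = i then c (i + 1) + 1 else if j = i + 1 then c i else c j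

theorem up_self (i : ℕ) (c : ℕ → ℕ) : up i c i = c (i + 1) + 1 := by simp [up]
theorem up_succ (i : ℕ) (c : ℕ → ℕ) : up i c (i + 1) = c i := by simp [up]
theorem up_other {i j : ℕ} (h1 : j ≠ i) (h2 : j ≠ i + 1) (c : ℕ → ℕ) : up i c j = c j := by
  simp [up, h1, h2]

theorem Gr_up {h i : ℕ} (hi : i + 1 < h) {c : ℕ → ℕ} (hc : c i ≤ c (i + 1)) :
    Gr h c = Q i (Gr h (up i c)) := by
  induction h generalizing i c with
  | zero => omega
  | succ h ih =>
    set p := gm h c with hp
    have hple : p ≤ h := gm_le h c
    have hmin : ∀ j ≤ h, c p ≤ c j := fun j hj => gm_min hj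
    have hlt : ∀ j < p, c p < c j := fun j hj => gm_lt hj
    have hupmin : ∀ j ≤ h, c p ≤ up i c j := by
      intro j hj
      by_cases h1 : j = i
      · subst h1; rw [up_self]; have := hmin (j + 1) (by omega); omega
      · by_cases h2 : j = i + 1
        · subst h2; rw [up_succ]; exact hmin i (by omega)
        · rw [up_other h1 h2]; exact hmin j hj
    rcases lt_trichotomy p i with h1 | h1 | h1
    · -- p < i
      have hgm : gm h (up i c) = p := by
        apply gm_eq hple
        · intro j hj
          rw [up_other (j := p) (by omega) (by omega)]; exact hupmin j hj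
        · intro j hj
          rw [up_other (j := p) (by omega) (by omega), up_other (by omega) (by omega)]
          exact hlt j hj
      obtain ⟨i, rfl⟩ : ∃ i', i = i' + 1 := ⟨i - 1, by omega⟩
      have hred : red p (c p) (up (i + 1) c) = up i (red p (c p) c) := by
        funext j
        have m1 := hmin (i + 1) (by omega)
        have m2 := hmin (i + 1 + 1) (by omega)
        simp only [red, up]
        split_ifs <;> first | rfl | omega
      rw [Gr_succ, Gr_succ, hgm, ← hp, up_other (j := p) (by omega) (by omega), hred,
        Q_U (by omega) (by omega), Q_e_pow (by omega), Q_e (by omega),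
        ← ih (i := i) (by omega) (by
          simp only [red]
          rw [if_neg (by omega), if_neg (by omega)]
          omega)]
    · -- p = i
      have hpi : c i < up i c i := by rw [up_self]; omega
      have hupmin' : ∀ j ≤ h, c i ≤ up i c j := by
        intro j hj
        have := hupmin j hj
        rw [h1] at this
        exact this
      have hgm : gm h (up i c) = i + 1 := by
        apply gm_eq (by omega)
        · intro j hj
          rw [up_succ]; exact hupmin' j hj
        · intro j hj
          rw [up_succ]
          by_cases h2 : j = i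
          · subst h2; exact hpi
          · rw [up_other h2 (by omega)]
            have := hlt j (by omega)
            rw [h1] at this
            exact this
      have hred : red (i + 1) (c i) (up i c) = red i (c i) c := by
        funext j
        have m1 : c i ≤ c (i + 1) := hc
        simp only [red, up]
        split_ifs <;> first | rfl | omega | (subst_vars; omega)
      rw [Gr_succ, Gr_succ, hgm, ← hp, up_succ, hred, h1, e_succ i]
      have e1 : e (h + 1) ^ c i * (e i * X i * Gr h (red i (c i) c)) =
          X i * (e (h + 1) ^ c i * (e i * Gr h (red i (c i) c))) := by ring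
      rw [e1, U_X (by omega), Q_X, ← U_succ']
      congr 2; omega
    · -- p > i
      have h2 : p ≠ i + 1 := by
        intro h3
        have := hlt i (by omega)
        rw [h3] at this
        omega
      have hgm : gm h (up i c) = p := by
        apply gm_eq hple
        · intro j hj
          rw [up_other (j := p) (by omega) (by omega)]; exact hupmin j hj
        · intro j hj
          rw [up_other (j := p) (by omega) (by omega)]
          by_cases h4 : j = i
          · subst h4; rw [up_self]; have := hmin (j + 1) (by omega); omega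
          · by_cases h5 : j = i + 1
            · subst h5; rw [up_succ]; exact hlt i (by omega)
            · rw [up_other h4 h5]; exact hlt j hj
      have hred : red p (c p) (up i c) = up i (red p (c p) c) := by
        funext j
        have m1 := hlt i (by omega)
        have m2 := hlt (i + 1) (by omega)
        simp only [red, up]
        split_ifs <;> first | rfl | omega
      rw [Gr_succ, Gr_succ, hgm, ← hp, up_other (j := p) (by omega) (by omega), hred,
        Q_U_far (by omega), Q_e_pow (by omega), Q_e (by omega),
        ← ih (i := i) (by omega) (by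
          simp only [red]
          rw [if_pos (by omega), if_pos (by omega)]
          omega)]

theorem P_Gr_out {h i : ℕ} (hi : h ≤ i) (c : ℕ → ℕ) : P i (Gr h c) = Gr h c := by
  induction h generalizing i c with
  | zero => exact P_one i
  | succ h ih =>
    have := gm_le h c
    rw [Gr_succ, P_U_far (by omega), P_e_pow (by omega), P_e (by omega), ih (by omega)]

theorem Gr_add_one (h : ℕ) (c : ℕ → ℕ) : Gr h (fun i => c i + 1) = e h * Gr h c := by
  cases h with
  | zero => rw [e_zero, one_mul]; rfl
  | succ h =>
    have h1 : gm h (fun i => c i + 1) = gm h c := by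
      apply gm_eq (gm_le h c)
      · intro i hi; have := gm_min (c := c) hi; omega
      · intro i hi; have := gm_lt (c := c) hi; omega
    have h2 : red (gm h c) (c (gm h c) + 1) (fun i => c i + 1) = red (gm h c) (c (gm h c)) c := by
      funext j
      simp only [red]
      split_ifs <;> omega
    have := gm_le h c
    rw [Gr_succ, Gr_succ, h1, h2, pow_succ', mul_assoc, U_e (by omega)]

theorem Gr_trailing {h : ℕ} {c : ℕ → ℕ} (H : c h = 0) : Gr (h + 1) c = Gr h c := by
  induction h generalizing c with
  | zero =>
    have h1 : gm 0 c = 0 := Nat.le_zero.1 (gm_le _ _)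
    rw [Gr_succ, h1, H]
    simp [e_zero, Gr]
  | succ h ih =>
    by_cases hz : ∃ i < h + 1, c i = 0
    · obtain ⟨i0, hi0, hz0⟩ := hz
      have hmin0 : c (gm h c) = 0 := by
        have := gm_min (h := h) (c := c) (i := i0) (by omega); omega
      have hgm : gm (h + 1) c = gm h c := by
        apply gm_eq ((gm_le h c).trans (by omega))
        · intro i _; rw [hmin0]; omega
        · intro i hi; exact gm_lt hi
      have := gm_le h c
      rw [Gr_succ (h + 1) c, Gr_succ h c, hgm, hmin0, ih,
        show h + 1 - gm h c = (h - gm h c) + 1 by omega, U_succ,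
        show gm h c + (h - gm h c) = h by omega, pow_zero, pow_zero, one_mul,
        P_e (by omega), P_Gr_out le_rfl]
      simp only [red]
      rw [if_neg (by omega), H]
    · push Not at hz
      have hgm : gm (h + 1) c = h + 1 := by
        apply gm_eq le_rfl
        · intro i _; rw [H]; omega
        · intro i hi; rw [H]; exact Nat.pos_of_ne_zero (hz i hi)
      have h1 : Gr (h + 1) c = e (h + 1) * Gr (h + 1) (fun i => c i - 1) := by
        rw [← Gr_add_one]
        apply Gr_congr
        intro i hi
        have := hz i hi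
        omega
      rw [Gr_succ, hgm, H, Nat.sub_self, U_zero, pow_zero, one_mul, h1]
      congr 1
      apply Gr_congr
      intro i hi
      simp only [red]
      rw [if_pos hi, Nat.sub_zero]

theorem Gr_trailing' {h h' : ℕ} (hh : h ≤ h') {c : ℕ → ℕ} (H : ∀ i, h ≤ i → c i = 0) :
    Gr h' c = Gr h c := by
  induction h' with
  | zero => have : h = 0 := by omega
            subst this; rfl
  | succ h' ih =>
    by_cases h1 : h = h' + 1
    · subst h1; rfl
    · rw [Gr_trailing (H h' (by omega)), ih (by omega)]

theorem Gr_staircase (n : ℕ) {c : ℕ → ℕ} (H : ∀ i < n, c i = n - 1 - i) :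
    Gr n c = ∏ i ∈ range n, X i ^ (n - 1 - i) := by
  induction n generalizing c with
  | zero => simp [Gr]
  | succ n ih =>
    have hn : c n = 0 := by rw [H n (by omega)]; omega
    have hgm : gm n c = n := by
      apply gm_eq le_rfl
      · intro i _; rw [hn]; omega
      · intro i hi; rw [hn, H i (by omega)]; omega
    rw [Gr_succ, hgm, hn, Nat.sub_self, U_zero, pow_zero, one_mul, ih, Finset.prod_range_succ,
      Nat.add_sub_cancel, Nat.sub_self, pow_zero, mul_one, e, ← Finset.prod_mul_distrib]
    · apply Finset.prod_congr rfl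
      intro i hi
      have := Finset.mem_range.1 hi
      rw [← pow_succ']; congr 1; omega
    · intro i hi
      simp only [red]
      rw [if_pos hi, H i (by omega)]; omega

/-! ### families -/

theorem exists_leftmost_min {h : ℕ} {c : ℕ → ℕ → ℕ} (hc : Aff (h + 1) c) :
    ∃ q, q ≤ h ∧ (∀ᶠ N in atTop, ∀ i ≤ h, c N q ≤ c N i) ∧
      (∀ᶠ N in atTop, ∀ i < q, c N q < c N i) := by
  induction h with
  | zero =>
    exact ⟨0, le_rfl, Eventually.of_forall (fun N i hi => by
      have : i = 0 := by omega
      subst this; exact le_rfl), Eventually.of_forall (fun N i hi => by omega)⟩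
  | succ h ih =>
    obtain ⟨q, hq, h1, h2⟩ := ih (fun i hi => hc i (by omega))
    have hle : (∀ᶠ N in atTop, c N q ≤ c N (h + 1)) →
      ∃ q, q ≤ h + 1 ∧ (∀ᶠ N in atTop, ∀ i ≤ h + 1, c N q ≤ c N i) ∧
      (∀ᶠ N in atTop, ∀ i < q, c N q < c N i) := by
      intro h3
      refine ⟨q, by omega, ?_, h2⟩
      filter_upwards [h1, h3] with N e1 e3 i hi
      by_cases h4 : i = h + 1
      · subst h4; exact e3
      · exact e1 i (by omega)
    rcases Aff1.cmp (hc q (by omega)) (hc (h + 1) (by omega)) with h3 | h3 | h3
    · exact hle (by filter_upwards [h3] with N e; omega)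
    · exact hle (by filter_upwards [h3] with N e; omega)
    · refine ⟨h + 1, le_rfl, ?_, ?_⟩
      · filter_upwards [h1, h3] with N e1 e3 i hi
        by_cases h4 : i = h + 1
        · subst h4; exact le_rfl
        · exact e3.le.trans (e1 i (by omega))
      · filter_upwards [h1, h3] with N e1 e3 i hi
        exact lt_of_lt_of_le e3 (e1 i (by omega))

theorem V_replicate (k n : ℕ) (f : R) :
    V k (List.replicate n false) f = (∏ i ∈ range n, X (k + i)) * f := by
  induction n generalizing k with
  | zero => simp
  | succ n ih =>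
    rw [List.replicate_succ, V_false, ih, Finset.prod_range_succ', show k + 0 = k from rfl]
    have : ∏ i ∈ range n, (X (k + 1 + i) : R) = ∏ i ∈ range n, X (k + (i + 1)) := by
      apply Finset.prod_congr rfl
      intro i _; congr 1; omega
    rw [this]; ring

theorem e_eq_V (n : ℕ) (f : R) : e n * f = V 0 (List.replicate n false) f := by
  rw [V_replicate, e]; congr 1
  apply Finset.prod_congr rfl
  intro i _; rw [Nat.zero_add]

/-- no condition -/
abbrev tt : (ℕ → ℕ → ℕ) → Prop := fun _ => True

theorem Pos_e {h p : ℕ} (hp : p ≤ h) {f : ℕ → R} (hf : Pos h tt f) :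
    Pos h tt (fun N => e p * f N) := by
  refine hf.bind (fun _ => LinearMap.mulLeft (Polynomial ℤ) (e p)) ?_
  intro γ hγ _
  have := Pos_V h γ hγ (fun N => ∑ i ∈ range h, γ N i) (Eventually.of_forall fun N i hi =>
    Finset.single_le_sum (f := fun i => γ N i) (fun _ _ => Nat.zero_le _) (Finset.mem_range.2 hi))
    (List.replicate p false) (by simpa using hp)
  refine (this.mono (p' := tt) (fun _ _ _ => trivial)).congr (Eventually.of_forall fun N => ?_)
  rw [LinearMap.mulLeft_apply, e_eq_V]

theorem Pos_U {h p n : ℕ} (hpn : p + n < h) {f : ℕ → R} (hf : Pos h tt f) :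
    Pos h tt (fun N => U p n (f N)) := by
  induction n generalizing f with
  | zero => simpa using hf
  | succ n ih =>
    simp only [U_succ]
    exact ih (by omega) (Pos_P (by omega) hf (fun _ _ _ => trivial))

theorem Pos_e_pow {h : ℕ} {m : ℕ → ℕ} (hm : Aff1 m) {f : ℕ → R} (hf : Pos h tt f) :
    Pos (h + 1) tt (fun N => e (h + 1) ^ m N * f N) := by
  refine hf.bind (fun N => LinearMap.mulLeft (Polynomial ℤ) (e (h + 1) ^ m N)) ?_
  intro γ hγ _
  have h1 : Aff (h + 1) (fun N i => (if i < h then γ N i else 0) + m N) := by
    intro i hi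
    by_cases h2 : i < h
    · simp only [if_pos h2]; exact (hγ i h2).add hm
    · simp only [if_neg h2]; exact (Aff1.const 0).add hm
  refine (Pos.base (p := tt) h1 trivial).congr (Eventually.of_forall fun N => ?_)
  rw [LinearMap.mulLeft_apply, ← e_pow_mul_L (h + 1) (m N) (fun i => if i < h then γ N i else 0),
    L_trailing (by simp)]
  congr 1
  apply L_congr
  intro i hi
  rw [if_pos hi]

/-- **Theorem B**: Grothendieck polynomials of affine families of codes. -/
theorem Pos_Gr (h : ℕ) (c : ℕ → ℕ → ℕ) (hc : Aff h c) : Pos h tt (fun N => Gr h (c N)) := by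
  induction h generalizing c with
  | zero => exact Pos.base (γ := c) hc trivial
  | succ h ih =>
    obtain ⟨p, hp, h1, h2⟩ := exists_leftmost_min hc
    have hm : Aff1 (fun N => c N p) := hc p (by omega)
    have hred : Aff h (fun N => red p (c N p) (c N)) := by
      intro i hi
      show Aff1 (fun N => if i < p then c N i - c N p - 1 else c N (i + 1) - c N p)
      split_ifs with h3
      · have a1 := (hc i (by omega)).sub hm (by filter_upwards [h1] with N e; exact e i (by omega))
        refine a1.sub (Aff1.const 1) ?_
        filter_upwards [h2] with N e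
        have := e i h3
        omega
      · exact (hc (i + 1) (by omega)).sub hm (by
          filter_upwards [h1] with N e; exact e (i + 1) (by omega))
    have h4 := Pos_U (p := p) (n := h - p) (by omega) (Pos_e_pow hm (Pos_e hp (ih _ hred)))
    refine h4.congr ?_
    filter_upwards [h1, h2] with N e1 e2
    have : gm h (c N) = p := gm_eq hp e1 e2
    rw [Gr_succ, this]

end Pool.Agent.Helper32.Lasc
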