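import Pool.Agent.Helper32.Lasc.COp

/-! Canonical Lascoux polynomials `L h α` (`α` restricted to positions `< h`). -/

namespace Pool.Agent.Helper32.Lasc

open MvPolynomial Finset

/-- insert `b` at position `k` -/
def ins (k b : ℕ) (α : ℕ → ℕ) : ℕ → ℕ := fun i => if i < k then α i else if i = k then b else α (i - 1)

/-- delete position `q` -/
def del (q : ℕ) (α : ℕ → ℕ) : ℕ → ℕ := fun i => if i < q then α i else α (i + 1)

theorem exists_fm (h : ℕ) (α : ℕ → ℕ) : ∃ q, q ≤ h ∧ ∀ i ≤ h, α i ≤ α q := by
  obtain ⟨q, hq, hm⟩ := Finset.exists_max_image (range (h + 1)) α ⟨0, by simp⟩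
  exact ⟨q, by simpa [Nat.lt_succ_iff] using hq, fun i hi => hm i (by simpa [Nat.lt_succ_iff] using hi)⟩

/-- leftmost maximum of `α` on `[0,h]` -/
noncomputable def fm (h : ℕ) (α : ℕ → ℕ) : ℕ := by
  classical exact Nat.find (exists_fm h α)

theorem fm_le (h : ℕ) (α : ℕ → ℕ) : fm h α ≤ h := by
  classical exact (Nat.find_spec (exists_fm h α)).1

theorem le_fm {h : ℕ} {α : ℕ → ℕ} {i : ℕ} (hi : i ≤ h) : α i ≤ α (fm h α) := by
  classical exact (Nat.find_spec (exists_fm h α)).2 i hi

theorem lt_fm {h : ℕ} {α : ℕ → ℕ} {i : ℕ} (hi : i < fm h α) : α i < α (fm h α) := by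
  classical
  by_contra hc
  push Not at hc
  have := Nat.find_min (exists_fm h α) (m := i) hi
  apply this
  exact ⟨(le_of_lt hi).trans (fm_le h α), fun j hj => (le_fm hj).trans hc⟩

theorem fm_eq {h q : ℕ} {α : ℕ → ℕ} (h1 : q ≤ h) (h2 : ∀ i ≤ h, α i ≤ α q)
    (h3 : ∀ i < q, α i < α q) : fm h α = q := by
  rcases lt_trichotomy (fm h α) q with hl | hl | hl
  · have := h3 _ hl
    have := le_fm (α := α) h1
    omega
  · exact hl
  · have := lt_fm (h := h) (α := α) hl
    have := h2 _ (fm_le h α)
    omega

/-- The canonical Lascoux polynomial. -/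
noncomputable def L : ℕ → (ℕ → ℕ) → R
  | 0, _ => 1
  | h + 1, α => I (fm h α) (α (fm h α)) (L h (del (fm h α) α))

theorem L_zero' (α : ℕ → ℕ) : L 0 α = 1 := rfl
theorem L_succ (h : ℕ) (α : ℕ → ℕ) :
    L (h + 1) α = I (fm h α) (α (fm h α)) (L h (del (fm h α) α)) := rfl

theorem L_congr {h : ℕ} {α γ : ℕ → ℕ} (H : ∀ i < h, α i = γ i) : L h α = L h γ := by
  induction h generalizing α γ with
  | zero => rfl
  | succ h ih =>
    have h1 : fm h α = fm h γ := by
      apply fm_eq (fm_le h γ)
      · intro i hi
        rw [H i (by omega), H _ (Nat.lt_succ_of_le (fm_le h γ))]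
        exact le_fm hi
      · intro i hi
        rw [H i (by have := fm_le h γ; omega), H _ (Nat.lt_succ_of_le (fm_le h γ))]
        exact lt_fm hi
    rw [L_succ, L_succ, h1, H _ (Nat.lt_succ_of_le (fm_le h γ))]
    congr 1
    apply ih
    intro i hi
    unfold del
    split_ifs
    · exact H i (by omega)
    · exact H (i + 1) (by omega)

theorem del_ins (k b : ℕ) (α : ℕ → ℕ) : del k (ins k b α) = α := by
  funext i
  unfold del ins
  by_cases h : i < k
  · simp [h]
  · rw [if_neg h, if_neg (by omega), if_neg (by omega), Nat.add_sub_cancel]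

theorem ins_del (q : ℕ) (α : ℕ → ℕ) : ins q (α q) (del q α) = α := by
  funext i
  unfold del ins
  by_cases h : i < q
  · simp [h]
  · by_cases h2 : i = q
    · subst h2; simp
    · rw [if_neg h, if_neg h2]
      show (if i - 1 < q then α (i - 1) else α (i - 1 + 1)) = α i
      rw [if_neg (by omega)]; congr 1; omega

theorem ins_lt {k b : ℕ} {α : ℕ → ℕ} {i : ℕ} (h : i < k) : ins k b α i = α i := by
  unfold ins; rw [if_pos h]
theorem ins_self (k b : ℕ) (α : ℕ → ℕ) : ins k b α k = b := by
  unfold ins; simp
theorem ins_gt {k b : ℕ} {α : ℕ → ℕ} {i : ℕ} (h : k < i) : ins k b α i = α (i - 1) := by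
  unfold ins; rw [if_neg (by omega), if_neg (by omega)]
theorem del_lt {q : ℕ} {α : ℕ → ℕ} {i : ℕ} (h : i < q) : del q α i = α i := by
  unfold del; rw [if_pos h]
theorem del_ge {q : ℕ} {α : ℕ → ℕ} {i : ℕ} (h : q ≤ i) : del q α i = α (i + 1) := by
  unfold del; rw [if_neg (by omega)]

theorem del_ins_lt {j k b : ℕ} (h : j < k) (α : ℕ → ℕ) :
    del j (ins k b α) = ins (k - 1) b (del j α) := by
  funext i
  simp only [del, ins]
  split_ifs <;> first | rfl | omega | (congr 1; omega)

theorem ins_le {k b u : ℕ} {α : ℕ → ℕ} {h : ℕ} (h1 : ∀ i < h, α i ≤ u) (hb : b ≤ u) (hk : k ≤ h) :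
    ∀ i < h + 1, ins k b α i ≤ u := by
  intro i hi
  unfold ins
  split_ifs
  · exact h1 i (by omega)
  · exact hb
  · exact h1 _ (by omega)

theorem L_ins {h k b : ℕ} {α : ℕ → ℕ} (hα : ∀ i < h, α i ≤ b) (hk : k ≤ h) :
    L (h + 1) (ins k b α) = I k b (L h α) := by
  induction h generalizing k α with
  | zero =>
    have hk0 : k = 0 := by omega
    subst hk0
    have hf : fm 0 (ins 0 b α) = 0 := Nat.le_zero.1 (fm_le _ _)
    rw [L_succ, hf, ins_self]; rfl
  | succ h ih =>
    set γ := ins k b α with hγ
    have hγle : ∀ i < h + 1 + 1, γ i ≤ b := ins_le hα le_rfl hk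
    by_cases hj : ∃ j < k, α j = b
    · -- leftmost such j
      classical
      obtain ⟨hjk, hjb⟩ := Nat.find_spec hj
      set j := Nat.find hj with hjdef
      have hmin : ∀ i < j, α i < b := by
        intro i hi
        have h1 := Nat.find_min hj hi
        have h2 : α i ≤ b := hα i (by omega)
        have h3 : ¬ α i = b := fun h => h1 ⟨by omega, h⟩
        omega
      have f1 : fm (h + 1) γ = j := by
        apply fm_eq (by omega)
        · intro i hi
          rw [hγ, ins_lt (i := j) hjk, hjb, ← hγ]
          exact hγle i (by omega)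
        · intro i hi
          rw [hγ, ins_lt (i := j) hjk, ins_lt (i := i) (by omega), hjb]
          exact hmin i hi
      have f2 : fm h α = j := by
        apply fm_eq (by omega)
        · intro i hi; rw [hjb]; exact hα i (by omega)
        · intro i hi; rw [hjb]; exact hmin i hi
      rw [L_succ, f1, L_succ h α, f2, hγ, ins_lt hjk, hjb, del_ins_lt hjk,
        ih (α := del j α) (k := k - 1) (by
          intro i hi
          unfold del
          split_ifs
          · exact hα i (by omega)
          · exact hα (i + 1) (by omega)) (by omega), I_I hjk]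
    · push Not at hj
      have f1 : fm (h + 1) γ = k := by
        apply fm_eq hk
        · intro i hi
          rw [hγ, ins_self, ← hγ]
          exact hγle i (by omega)
        · intro i hi
          rw [hγ, ins_self, ins_lt hi]
          have h1 := hj i hi
          have h2 := hα i (by omega)
          omega
      rw [L_succ, f1, hγ, ins_self, del_ins]

/-- remove any maximum -/
theorem L_del {h q : ℕ} {α : ℕ → ℕ} (hq : q ≤ h) (hα : ∀ i ≤ h, α i ≤ α q) :
    L (h + 1) α = I q (α q) (L h (del q α)) := by
  conv_lhs => rw [← ins_del q α]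
  apply L_ins _ hq
  intro i hi
  unfold del
  split_ifs
  · exact hα i (by omega)
  · exact hα (i + 1) (by omega)

/-- exchange positions `i`, `i+1` -/
def swp (i : ℕ) (α : ℕ → ℕ) : ℕ → ℕ := fun j => α (Equiv.swap i (i + 1) j)

theorem swp_self (i : ℕ) (α : ℕ → ℕ) : swp i α i = α (i + 1) := by simp [swp]
theorem swp_succ (i : ℕ) (α : ℕ → ℕ) : swp i α (i + 1) = α i := by simp [swp]
theorem swp_other {i j : ℕ} (h1 : j ≠ i) (h2 : j ≠ i + 1) (α : ℕ → ℕ) : swp i α j = α j := by
  simp [swp, Equiv.swap_apply_of_ne_of_ne h1 h2]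
theorem swp_swp (i : ℕ) (α : ℕ → ℕ) : swp i (swp i α) = α := by
  funext j; simp [swp]

/-- sort the entries `i`, `i+1` increasingly -/
def srt (i : ℕ) (α : ℕ → ℕ) : ℕ → ℕ := if α (i + 1) < α i then swp i α else α

theorem srt_ins_in {i q b : ℕ} (h : i + 2 ≤ q) (α : ℕ → ℕ) :
    srt i (ins q b α) = ins q b (srt i α) := by
  unfold srt
  rw [ins_lt (i := i) (by omega), ins_lt (i := i + 1) (by omega)]
  split_ifs with hc
  · funext j
    by_cases h1 : j = i
    · subst h1; rw [swp_self, ins_lt (by omega), ins_lt (by omega), swp_self]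
    · by_cases h2 : j = i + 1
      · subst h2; rw [swp_succ, ins_lt (by omega), ins_lt (by omega), swp_succ]
      · rw [swp_other h1 h2]
        unfold ins
        split_ifs
        · rw [swp_other h1 h2]
        · rfl
        · rw [swp_other (by omega) (by omega)]
  · rfl

theorem srt_ins_out {i q b : ℕ} (h : q ≤ i) (α : ℕ → ℕ) :
    srt (i + 1) (ins q b α) = ins q b (srt i α) := by
  unfold srt
  rw [ins_gt (i := i + 1) (by omega), ins_gt (i := i + 1 + 1) (by omega)]
  simp only [Nat.add_sub_cancel]
  split_ifs with hc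
  · funext j
    by_cases h1 : j = i + 1
    · subst h1
      rw [swp_self, ins_gt (by omega), ins_gt (by omega), Nat.add_sub_cancel,
        Nat.add_sub_cancel, swp_self]
    · by_cases h2 : j = i + 1 + 1
      · subst h2
        rw [swp_succ, ins_gt (by omega), ins_gt (by omega), Nat.add_sub_cancel,
          Nat.add_sub_cancel, swp_succ]
      · rw [swp_other h1 h2]
        unfold ins
        split_ifs
        · rw [swp_other (by omega) (by omega)]
        · rfl
        · rw [swp_other (by omega) (by omega)]
  · rfl

theorem P_L {h i : ℕ} (hi : i + 1 < h) (α : ℕ → ℕ) : P i (L h α) = L h (srt i α) := by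
  induction h generalizing i α with
  | zero => omega
  | succ h ih =>
    obtain ⟨q, hq, hm⟩ := exists_fm h α
    have hdel : ∀ i < h, del q α i ≤ α q := by
      intro i hi
      unfold del
      split_ifs
      · exact hm i (by omega)
      · exact hm (i + 1) (by omega)
    rw [L_del hq hm]
    have hsrt : ∀ i, i + 1 < h → ∀ j < h, srt i (del q α) j ≤ α q := by
      intro i hi j hj
      unfold srt
      split_ifs
      · by_cases h1 : j = i
        · subst h1; rw [swp_self]; exact hdel _ hi
        · by_cases h2 : j = i + 1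
          · subst h2; rw [swp_succ]; exact hdel _ (by omega)
          · rw [swp_other h1 h2]; exact hdel _ hj
      · exact hdel j hj
    rcases lt_trichotomy i q with h1 | h1 | h1
    · by_cases h2 : i + 2 ≤ q
      · rw [P_I_in h2, ih (by omega), ← L_ins (hsrt i (by omega)) hq, ← srt_ins_in h2, ins_del]
      · have h3 : q = i + 1 := by omega
        subst h3
        rw [P_I_succ, ← L_ins hdel hq, ins_del]
        have : srt i α = α := by
          unfold srt
          rw [if_neg]
          have := hm i (by omega)
          omega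
        rw [this]
    · subst h1
      rw [P_I_self, ← L_ins hdel (by omega)]
      congr 1
      have h4 := hm (i + 1) (by omega)
      unfold srt
      split_ifs with h5
      · funext j
        by_cases h1 : j = i
        · subst h1; rw [swp_self, ins_lt (by omega), del_ge le_rfl]
        · by_cases h2 : j = i + 1
          · subst h2; rw [swp_succ, ins_self]
          · rw [swp_other h1 h2]
            unfold ins del
            split_ifs <;> first | rfl | omega | (congr 1; omega)
      · have h6 : α (i + 1) = α i := by omega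
        funext j
        unfold ins del
        split_ifs with h7 h8 h9 h10
        · rfl
        · have : j = i := by omega
          subst this; exact h6
        · subst h9; exact h6.symm
        · omega
        · congr 1; omega
    · obtain ⟨i, rfl⟩ : ∃ j, i = j + 1 := ⟨i - 1, by omega⟩
      rw [P_I_far (by omega), ih (by omega), ← L_ins (hsrt i (by omega)) hq,
        ← srt_ins_out (by omega), ins_del]

theorem P_L_out {h i : ℕ} (hi : h ≤ i) (α : ℕ → ℕ) : P i (L h α) = L h α := by
  induction h generalizing i α with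
  | zero => exact P_one i
  | succ h ih =>
    obtain ⟨i, rfl⟩ : ∃ j, i = j + 1 := ⟨i - 1, by omega⟩
    rw [L_succ, P_I_far (by have := fm_le h α; omega), ih (by omega)]

theorem L_const_zero {h : ℕ} {α : ℕ → ℕ} (H : ∀ i < h, α i = 0) : L h α = 1 := by
  induction h generalizing α with
  | zero => rfl
  | succ h ih =>
    have : ∀ i ≤ h, α i ≤ α 0 := fun i hi => by rw [H i (by omega)]; omega
    rw [L_del (q := 0) (by omega) this, H 0 (by omega), I_zero, ih, map_one]
    · ring
    · intro i hi
      rw [del_ge (by omega)]; exact H _ (by omega)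

/-- trailing zeros do not matter -/
theorem L_trailing {h : ℕ} {α : ℕ → ℕ} (H : α h = 0) : L (h + 1) α = L h α := by
  induction h generalizing α with
  | zero =>
    rw [L_const_zero (h := 1), L_zero']
    intro i hi
    have : i = 0 := by omega
    subst this; exact H
  | succ h ih =>
    by_cases hz : ∀ i < h + 1, α i = 0
    · rw [L_const_zero (h := h + 1) hz, L_const_zero]
      intro i hi
      by_cases h1 : i = h + 1
      · subst h1; exact H
      · exact hz i (by omega)
    · push Not at hz
      obtain ⟨i0, hi0, hne⟩ := hz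
      obtain ⟨q, hq, hm⟩ := exists_fm h α
      have hpos : 0 < α q := lt_of_lt_of_le (Nat.pos_of_ne_zero hne) (hm i0 (by omega))
      have hm2 : ∀ i ≤ h + 1, α i ≤ α q := by
        intro i hi
        by_cases h1 : i = h + 1
        · subst h1; rw [H]; omega
        · exact hm i (by omega)
      rw [L_del (h := h + 1) (by omega) hm2, L_del hq hm, ih]
      rw [del_ge (by omega)]; exact H

theorem L_monomial {h : ℕ} {α : ℕ → ℕ} (H : ∀ i, i + 1 < h → α (i + 1) ≤ α i) :
    L h α = ∏ i ∈ range h, X i ^ α i := by
  induction h generalizing α with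
  | zero => simp [L_zero']
  | succ h ih =>
    have hm : ∀ i ≤ h, α i ≤ α 0 := by
      intro i hi
      induction i with
      | zero => exact le_rfl
      | succ i ihi => exact (H i (by omega)).trans (ihi (by omega))
    rw [L_del (q := 0) (by omega) hm, I_zero, ih, map_prod, Finset.prod_range_succ', mul_comm]
    · congr 1
      apply Finset.prod_congr rfl
      intro i _
      rw [map_pow, sh_X, del_ge (by omega)]
    · intro i hi
      rw [del_ge (by omega), del_ge (by omega)]
      exact H _ (by omega)

/-- `e n = x₀⋯x_{n-1}` -/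
noncomputable def e (n : ℕ) : R := ∏ i ∈ range n, X i

theorem e_zero : e 0 = 1 := by simp [e]
theorem e_succ (n : ℕ) : e (n + 1) = e n * X n := by rw [e, Finset.prod_range_succ, e]
theorem e_succ' (n : ℕ) : e (n + 1) = X 0 * sh (e n) := by
  rw [e, Finset.prod_range_succ', e, map_prod, mul_comm]
  congr 1
  apply Finset.prod_congr rfl
  intro i _; rw [sh_X]

theorem s_e {i n : ℕ} (h : i + 1 < n ∨ n ≤ i) : s i (e n) = e n := by
  induction n with
  | zero => rw [e_zero, map_one]
  | succ n ih =>
    rcases h with h | h
    · by_cases h1 : i + 1 < n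
      · rw [e_succ, map_mul, ih (Or.inl h1), s_X_other (by omega) (by omega)]
      · have h2 : n = i + 1 := by omega
        subst h2
        have h3 : s i (e i) = e i := by
          rw [e, map_prod]
          apply Finset.prod_congr rfl
          intro j hj
          have := Finset.mem_range.1 hj
          rw [s_X_other (by omega) (by omega)]
        rw [e_succ, e_succ, map_mul, map_mul, h3, s_X_self, s_X_succ]
        ring
    · rw [e_succ, map_mul, ih (Or.inr (by omega)), s_X_other (by omega) (by omega)]

theorem P_e {i n : ℕ} (h : i + 1 < n ∨ n ≤ i) (f : R) : P i (e n * f) = e n * P i f :=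
  P_symm_mul (s_e h) f
theorem Q_e {i n : ℕ} (h : i + 1 < n ∨ n ≤ i) (f : R) : Q i (e n * f) = e n * Q i f :=
  Q_symm_mul (s_e h) f

theorem D_e {q n : ℕ} (h : q < n) (f : R) : D 0 q (e n * f) = e n * D 0 q f := by
  induction q with
  | zero => rfl
  | succ q ih => rw [D_succ, ih (by omega), D_succ, Nat.zero_add, P_e (by omega)]

theorem e_mul_I {q h : ℕ} (hq : q ≤ h) (b : ℕ) (Y : R) :
    e (h + 1) * I q b Y = I q (b + 1) (e h * Y) := by
  rw [I_apply, I_apply, map_mul sh, ← D_e (by omega), e_succ']
  congr 1; ring

theorem e_mul_L (h : ℕ) (α : ℕ → ℕ) : e h * L h α = L h (fun i => α i + 1) := by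
  induction h generalizing α with
  | zero => rw [e_zero, one_mul]; rfl
  | succ h ih =>
    obtain ⟨q, hq, hm⟩ := exists_fm h α
    rw [L_del hq hm, e_mul_I hq, ih,
      L_del (q := q) (α := fun i => α i + 1) hq (fun i hi => by have := hm i hi; omega)]
    congr 2
    funext i
    unfold del
    split_ifs <;> rfl

theorem e_pow_mul_L (h m : ℕ) (α : ℕ → ℕ) : e h ^ m * L h α = L h (fun i => α i + m) := by
  induction m with
  | zero => simp
  | succ m ih => rw [pow_succ', mul_assoc, ih, e_mul_L]; rfl

end Pool.Agent.Helper32.Lasc
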