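import Pool.Agent.Helper32.Lasc.Groth

/-! Lascoux and Grothendieck families, Lehmer codes. -/

namespace Pool.Agent.Helper32.Lasc

open MvPolynomial Finset Filter

/-- `LL` is the family of Lascoux polynomials, indexed by weak compositions
(finitely supported `α : ℕ →₀ ℕ`, `α i` being the part attached to `xᵢ`):
`LL α = x^α` if `α` is weakly decreasing, and
`LL α = ∂ᵢ(xᵢ(1+βxᵢ₊₁) LL (sᵢα))` if `αᵢ < αᵢ₊₁`. -/
structure IsLascoux (LL : (ℕ →₀ ℕ) → R) : Prop where
  dominant : ∀ α : ℕ →₀ ℕ, (∀ i, α (i + 1) ≤ α i) → LL α = monomial α 1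
  step : ∀ (α : ℕ →₀ ℕ) (i : ℕ), α i < α (i + 1) →
    LL α = dd i (X i * (1 + be * X (i + 1)) * LL (α.equivMapDomain (Equiv.swap i (i + 1))))

/-- The Lehmer code: `lehmer w i = #{j > i : w j < w i}` (and `0` for `i ≥ n`). -/
def lehmer {n : ℕ} (w : Equiv.Perm (Fin n)) (i : ℕ) : ℕ :=
  if h : i < n then
    (univ.filter fun j : Fin n => (⟨i, h⟩ : Fin n) < j ∧ w j < w ⟨i, h⟩).card
  else 0

/-- The length of a permutation (number of inversions). -/
def len {n : ℕ} (w : Equiv.Perm (Fin n)) : ℕ :=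
  (univ.filter fun p : Fin n × Fin n => p.1 < p.2 ∧ w p.2 < w p.1).card

/-- `G` is the family of Grothendieck polynomials: `G n w₀ = x₀^{n-1} x₁^{n-2} ⋯`, and
`G n (w sᵢ) = ∂ᵢ((1+βxᵢ₊₁) G n w)` if `ℓ(w sᵢ) < ℓ(w)`. -/
structure IsGrothendieck (G : (n : ℕ) → Equiv.Perm (Fin n) → R) : Prop where
  top : ∀ n, G n Fin.revPerm = ∏ i : Fin n, X (i : ℕ) ^ (n - 1 - (i : ℕ))
  step : ∀ (n : ℕ) (w : Equiv.Perm (Fin n)) (i : ℕ) (hi : i + 1 < n),
    len (w * Equiv.swap ⟨i, by omega⟩ ⟨i + 1, hi⟩) < len w →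
    G n (w * Equiv.swap ⟨i, by omega⟩ ⟨i + 1, hi⟩) = dd i ((1 + be * X (i + 1)) * G n w)

theorem dd_eq_P (i : ℕ) (f : R) : dd i (X i * (1 + be * X (i + 1)) * f) = P i f := by
  rw [P_apply]; simp only [z]

theorem dd_eq_Q (i : ℕ) (f : R) : dd i ((1 + be * X (i + 1)) * f) = Q i f := by
  rw [Q_apply]; simp only [z]

/-! ### Lascoux polynomials -/

theorem L_trailing' {h h' : ℕ} (hh : h ≤ h') {α : ℕ → ℕ} (H : ∀ i, h ≤ i → α i = 0) :
    L h' α = L h α := by
  induction h' with
  | zero => have : h = 0 := by omega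
            subst this; rfl
  | succ h' ih =>
    by_cases h1 : h = h' + 1
    · subst h1; rfl
    · rw [L_trailing (H h' (by omega)), ih (by omega)]

theorem monomial_eq_prod {h : ℕ} (α : ℕ →₀ ℕ) (H : ∀ i, h ≤ i → α i = 0) :
    (monomial α 1 : R) = ∏ i ∈ range h, X i ^ α i := by
  rw [MvPolynomial.monomial_eq, map_one, one_mul]
  apply Finsupp.prod_of_support_subset
  · intro i hi
    rw [Finset.mem_range]
    by_contra hc
    exact (Finsupp.mem_support_iff.1 hi) (H i (by omega))
  · intro i _; rw [pow_zero]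

theorem swp_equivMapDomain (α : ℕ →₀ ℕ) (i : ℕ) :
    (⇑(α.equivMapDomain (Equiv.swap i (i + 1))) : ℕ → ℕ) = swp i α := by
  funext j
  rw [Finsupp.equivMapDomain_apply, Equiv.symm_swap, swp]

theorem sum_swp_lt {h i : ℕ} (hi : i + 1 < h) {α : ℕ → ℕ} (hα : α i < α (i + 1)) :
    ∑ j ∈ range h, j * swp i α j < ∑ j ∈ range h, j * α j := by
  have hmem : i ∈ range h := Finset.mem_range.2 (by omega)
  have hmem' : i + 1 ∈ (range h).erase i := Finset.mem_erase.2 ⟨by omega, Finset.mem_range.2 hi⟩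
  rw [← Finset.add_sum_erase _ _ hmem, ← Finset.add_sum_erase _ _ hmem',
    ← Finset.add_sum_erase (range h) (fun j => j * α j) hmem,
    ← Finset.add_sum_erase _ (fun j => j * α j) hmem']
  have : ∑ j ∈ ((range h).erase i).erase (i + 1), j * swp i α j =
      ∑ j ∈ ((range h).erase i).erase (i + 1), j * α j := by
    apply Finset.sum_congr rfl
    intro j hj
    rw [Finset.mem_erase, Finset.mem_erase] at hj
    rw [swp_other hj.2.1 hj.1]
  rw [this, swp_self, swp_succ]
  have : i * α (i + 1) + (i + 1) * α i < i * α i + (i + 1) * α (i + 1) := by nlinarith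
  omega

theorem IsLascoux.eq_L {LL : (ℕ →₀ ℕ) → R} (hL : IsLascoux LL) (h : ℕ) (α : ℕ →₀ ℕ)
    (H : ∀ i, h ≤ i → α i = 0) : LL α = L h α := by
  induction hm : ∑ j ∈ range h, j * α j using Nat.strong_induction_on generalizing α with
  | _ m ih =>
  subst hm
  by_cases hd : ∀ i, α (i + 1) ≤ α i
  · rw [hL.dominant α hd, monomial_eq_prod α H, L_monomial (fun i _ => hd i)]
  · push Not at hd
    obtain ⟨i, hi⟩ := hd
    have hih : i + 1 < h := by
      by_contra hc
      have := H (i + 1) (by omega)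
      omega
    rw [hL.step α i hi, dd_eq_P]
    have hsw := swp_equivMapDomain α i
    rw [ih _ _ (α.equivMapDomain (Equiv.swap i (i + 1))) _ rfl, hsw, P_L hih, srt, swp_self,
      swp_succ, if_pos hi, swp_swp]
    · rw [hsw]; exact sum_swp_lt hih hi
    · intro j hj
      rw [hsw, swp_other (by omega) (by omega)]; exact H j hj

/-- bound for the support -/
def bnd (α : ℕ →₀ ℕ) : ℕ := α.support.sup id + 1

theorem bnd_spec (α : ℕ →₀ ℕ) (i : ℕ) (hi : bnd α ≤ i) : α i = 0 := by
  by_contra hc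
  have h1 : i ∈ α.support := Finsupp.mem_support_iff.2 hc
  have h2 := Finset.le_sup (f := id) h1
  unfold bnd at hi
  simp only [id_eq] at h2
  omega

theorem exists_isLascoux : ∃ LL, IsLascoux LL := by
  refine ⟨fun α => L (bnd α) α, ?_, ?_⟩
  · intro α hα
    rw [monomial_eq_prod α (bnd_spec α), L_monomial (fun i _ => hα i)]
  · intro α i hi
    set α' := α.equivMapDomain (Equiv.swap i (i + 1)) with hα'
    have hsw : (⇑α' : ℕ → ℕ) = swp i α := swp_equivMapDomain α i
    obtain ⟨h, h1, h2, h3⟩ : ∃ h, bnd α ≤ h ∧ bnd α' ≤ h ∧ i + 1 < h :=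
      ⟨bnd α + bnd α' + i + 2, by omega, by omega, by omega⟩
    show L (bnd α) α = dd i (X i * (1 + be * X (i + 1)) * L (bnd α') α')
    rw [dd_eq_P, ← L_trailing' h1 (bnd_spec α), ← L_trailing' h2 (bnd_spec α'), P_L h3, hsw, srt,
      swp_self, swp_succ, if_pos hi, swp_swp]

theorem isLascoux_unique {LL LL' : (ℕ →₀ ℕ) → R} (h : IsLascoux LL) (h' : IsLascoux LL') :
    LL = LL' := by
  funext α
  rw [h.eq_L (bnd α) α (bnd_spec α), h'.eq_L (bnd α) α (bnd_spec α)]

/-! ### permutations -/

section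
variable {n : ℕ}

theorem lehmer_lt (w : Equiv.Perm (Fin n)) {i : ℕ} (h : i < n) :
    lehmer w i = (univ.filter fun j : Fin n => (⟨i, h⟩ : Fin n) < j ∧ w j < w ⟨i, h⟩).card := by
  unfold lehmer; rw [dif_pos h]

theorem lehmer_ge (w : Equiv.Perm (Fin n)) {i : ℕ} (h : n ≤ i) : lehmer w i = 0 := by
  unfold lehmer; rw [dif_neg (by omega)]

theorem len_eq_sum (w : Equiv.Perm (Fin n)) : len w = ∑ i ∈ range n, lehmer w i := by
  rw [← Fin.sum_univ_eq_sum_range (fun i => lehmer w i), len, Finset.card_filter,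
    Fintype.sum_prod_type]
  apply Finset.sum_congr rfl
  intro i _
  rw [lehmer_lt w i.2, Finset.card_filter]

theorem len_le (w : Equiv.Perm (Fin n)) : len w ≤ n * n := by
  unfold len
  refine (Finset.card_filter_le _ _).trans ?_
  simp

/-- effect of an adjacent transposition at a descent -/
theorem lehmer_swap (w : Equiv.Perm (Fin n)) (i : ℕ) (hi : i + 1 < n)
    (hw : w ⟨i + 1, hi⟩ < w ⟨i, by omega⟩) :
    lehmer w = up i (lehmer (w * Equiv.swap ⟨i, by omega⟩ ⟨i + 1, hi⟩)) ∧
    lehmer (w * Equiv.swap ⟨i, by omega⟩ ⟨i + 1, hi⟩) i ≤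
      lehmer (w * Equiv.swap ⟨i, by omega⟩ ⟨i + 1, hi⟩) (i + 1) := by
  obtain ⟨a, ha⟩ : ∃ a : Fin n, a = ⟨i, by omega⟩ := ⟨_, rfl⟩
  obtain ⟨b, hb⟩ : ∃ b : Fin n, b = ⟨i + 1, hi⟩ := ⟨_, rfl⟩
  rw [← ha, ← hb] at hw ⊢
  have hav : (a : ℕ) = i := by rw [ha]
  have hbv : (b : ℕ) = i + 1 := by rw [hb]
  have hab : a ≠ b := by intro h; rw [h] at hav; omega
  set w' := w * Equiv.swap a b with hw'
  have w'a : w' a = w b := by simp [hw']
  have w'b : w' b = w a := by simp [hw']
  have w'o : ∀ j, j ≠ a → j ≠ b → w' j = w j := by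
    intro j h1 h2
    simp [hw', Equiv.swap_apply_of_ne_of_ne h1 h2]
  have c1 : lehmer w' i = (univ.filter fun j : Fin n => b < j ∧ w j < w b).card := by
    rw [lehmer_lt w' (by omega : i < n), ← ha]
    congr 1
    ext j
    simp only [Finset.mem_filter, Finset.mem_univ, true_and]
    by_cases h1 : j = a
    · subst h1
      constructor
      · rintro ⟨h, _⟩; exact absurd h (lt_irrefl _)
      · rintro ⟨h, _⟩; rw [Fin.lt_def] at h; omega
    · by_cases h2 : j = b
      · subst h2
        rw [w'a, w'b]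
        constructor
        · rintro ⟨_, h⟩; exact absurd h (not_lt.2 hw.le)
        · rintro ⟨h, _⟩; exact absurd h (lt_irrefl _)
      · rw [w'o j h1 h2, w'a]
        have : (j : ℕ) ≠ a := fun h => h1 (Fin.ext h)
        have : (j : ℕ) ≠ b := fun h => h2 (Fin.ext h)
        rw [Fin.lt_def, Fin.lt_def (a := b)]
        constructor
        · rintro ⟨h, h'⟩; exact ⟨by omega, h'⟩
        · rintro ⟨h, h'⟩; exact ⟨by omega, h'⟩
  have c2 : lehmer w' (i + 1) = (univ.filter fun j : Fin n => b < j ∧ w j < w a).card := by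
    rw [lehmer_lt w' hi, ← hb]
    congr 1
    ext j
    simp only [Finset.mem_filter, Finset.mem_univ, true_and]
    rw [w'b]
    constructor
    · rintro ⟨h, h'⟩
      rw [w'o j (by intro h3; subst h3; rw [Fin.lt_def] at h; omega)
        (by intro h3; subst h3; exact absurd h (lt_irrefl _))] at h'
      exact ⟨h, h'⟩
    · rintro ⟨h, h'⟩
      rw [w'o j (by intro h3; subst h3; rw [Fin.lt_def] at h; omega)
        (by intro h3; subst h3; exact absurd h (lt_irrefl _))]
      exact ⟨h, h'⟩
  have d1 : lehmer w (i + 1) = (univ.filter fun j : Fin n => b < j ∧ w j < w b).card := by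
    rw [lehmer_lt w hi, ← hb]
  have d2 : lehmer w i = (univ.filter fun j : Fin n => b < j ∧ w j < w a).card + 1 := by
    rw [lehmer_lt w (by omega : i < n), ← ha,
      ← Finset.card_insert_of_notMem (a := b) (s := univ.filter fun j : Fin n => b < j ∧ w j < w a)
        (by simp)]
    congr 1
    ext j
    simp only [Finset.mem_insert, Finset.mem_filter, Finset.mem_univ, true_and]
    constructor
    · rintro ⟨h, h'⟩
      by_cases h2 : j = b
      · exact Or.inl h2
      · right
        have : (j : ℕ) ≠ b := fun h => h2 (Fin.ext h)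
        rw [Fin.lt_def] at h ⊢
        exact ⟨by omega, h'⟩
    · rintro (h | ⟨h, h'⟩)
      · subst h
        exact ⟨by rw [Fin.lt_def]; omega, hw⟩
      · exact ⟨by rw [Fin.lt_def] at h ⊢; omega, h'⟩
  have d3 : ∀ k, k ≠ i → k ≠ i + 1 → lehmer w k = lehmer w' k := by
    intro k h1 h2
    by_cases hk : k < n
    · rw [lehmer_lt w hk, lehmer_lt w' hk]
      obtain ⟨κ, hκ⟩ : ∃ κ : Fin n, κ = ⟨k, hk⟩ := ⟨_, rfl⟩
      have hκv : (κ : ℕ) = k := by rw [hκ]
      have k1 : κ ≠ a := by intro h; rw [h] at hκv; omega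
      have k2 : κ ≠ b := by intro h; rw [h] at hκv; omega
      rw [← hκ, w'o κ k1 k2]
      have hlt : ∀ j, κ < Equiv.swap a b j ↔ κ < j := by
        intro j
        by_cases h3 : j = a
        · subst h3; rw [Equiv.swap_apply_left, Fin.lt_def, Fin.lt_def]; omega
        · by_cases h4 : j = b
          · subst h4; rw [Equiv.swap_apply_right, Fin.lt_def, Fin.lt_def]; omega
          · rw [Equiv.swap_apply_of_ne_of_ne h3 h4]
      apply Finset.card_bij (fun j _ => Equiv.swap a b j)
      · intro j hj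
        simp only [Finset.mem_filter, Finset.mem_univ, true_and] at hj ⊢
        refine ⟨(hlt j).2 hj.1, ?_⟩
        rw [hw', Equiv.Perm.mul_apply, Equiv.swap_apply_self]
        exact hj.2
      · intro j _ j' _ h; exact (Equiv.swap a b).injective h
      · intro j hj
        simp only [Finset.mem_filter, Finset.mem_univ, true_and] at hj
        refine ⟨Equiv.swap a b j, ?_, Equiv.swap_apply_self _ _ _⟩
        simp only [Finset.mem_filter, Finset.mem_univ, true_and]
        refine ⟨(hlt j).2 hj.1, ?_⟩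
        have := hj.2
        rw [hw', Equiv.Perm.mul_apply] at this
        exact this
    · rw [lehmer_ge w (by omega), lehmer_ge w' (by omega)]
  constructor
  · funext k
    by_cases h1 : k = i
    · subst h1; rw [up_self, c2, d2]
    · by_cases h2 : k = i + 1
      · subst h2; rw [up_succ, c1, d1]
      · rw [up_other h1 h2]; exact d3 k h1 h2
  · rw [c1, c2]
    apply Finset.card_le_card
    intro j hj
    simp only [Finset.mem_filter, Finset.mem_univ, true_and] at hj ⊢
    exact ⟨hj.1, hj.2.trans hw⟩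

theorem sum_up {i : ℕ} (hi : i + 1 < n) (c : ℕ → ℕ) :
    ∑ j ∈ range n, up i c j = ∑ j ∈ range n, c j + 1 := by
  have hmem : i ∈ range n := Finset.mem_range.2 (by omega)
  have hmem' : i + 1 ∈ (range n).erase i := Finset.mem_erase.2 ⟨by omega, Finset.mem_range.2 hi⟩
  rw [← Finset.add_sum_erase _ _ hmem, ← Finset.add_sum_erase _ _ hmem',
    ← Finset.add_sum_erase (range n) c hmem,
    ← Finset.add_sum_erase _ c hmem']
  have : ∑ j ∈ ((range n).erase i).erase (i + 1), up i c j =
      ∑ j ∈ ((range n).erase i).erase (i + 1), c j := by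
    apply Finset.sum_congr rfl
    intro j hj
    rw [Finset.mem_erase, Finset.mem_erase] at hj
    rw [up_other hj.2.1 hj.1]
  rw [this, up_self, up_succ]
  omega

theorem len_swap (w : Equiv.Perm (Fin n)) (i : ℕ) (hi : i + 1 < n)
    (hw : w ⟨i + 1, hi⟩ < w ⟨i, by omega⟩) :
    len w = len (w * Equiv.swap ⟨i, by omega⟩ ⟨i + 1, hi⟩) + 1 := by
  rw [len_eq_sum, len_eq_sum]
  conv_lhs => rw [(lehmer_swap w i hi hw).1]
  exact sum_up hi _

theorem ascent_data (w : Equiv.Perm (Fin n)) (i : ℕ) (hi : i + 1 < n)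
    (hw : w ⟨i, by omega⟩ < w ⟨i + 1, hi⟩) :
    let w2 := w * Equiv.swap ⟨i, by omega⟩ ⟨i + 1, hi⟩
    w2 * Equiv.swap ⟨i, by omega⟩ ⟨i + 1, hi⟩ = w ∧ len w2 = len w + 1 ∧
      lehmer w2 = up i (lehmer w) ∧ lehmer w i ≤ lehmer w (i + 1) := by
  intro w2
  have h1 : w2 * Equiv.swap ⟨i, by omega⟩ ⟨i + 1, hi⟩ = w := by
    simp [w2, mul_assoc]
  have h2 : w2 ⟨i + 1, hi⟩ < w2 ⟨i, by omega⟩ := by
    simp only [w2, Equiv.Perm.mul_apply, Equiv.swap_apply_left, Equiv.swap_apply_right]
    exact hw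
  have h3 := lehmer_swap w2 i hi h2
  have h4 := len_swap w2 i hi h2
  rw [h1] at h3 h4
  exact ⟨h1, h4, h3.1, h3.2⟩

theorem lehmer_rev {i : ℕ} (hi : i < n) :
    lehmer (Fin.revPerm : Equiv.Perm (Fin n)) i = n - 1 - i := by
  rw [lehmer_lt _ hi]
  have : (univ.filter fun j : Fin n => (⟨i, hi⟩ : Fin n) < j ∧
      Fin.revPerm j < Fin.revPerm (⟨i, hi⟩ : Fin n)) = Finset.Ioi (⟨i, hi⟩ : Fin n) := by
    ext j
    simp only [Finset.mem_filter, Finset.mem_univ, true_and, Fin.revPerm_apply, Fin.rev_lt_rev,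
      Finset.mem_Ioi, and_self]
  rw [this, Fin.card_Ioi]

theorem eq_rev_of_no_ascent (w : Equiv.Perm (Fin n))
    (H : ∀ (i : ℕ) (hi : i + 1 < n), w ⟨i + 1, hi⟩ < w ⟨i, by omega⟩) : w = Fin.revPerm := by
  cases n with
  | zero => exact Subsingleton.elim _ _
  | succ n =>
    have h1 : StrictMono (fun i => Fin.rev (w i)) := by
      rw [Fin.strictMono_iff_lt_succ]
      intro i
      rw [Fin.rev_lt_rev]
      exact H i (by omega)
    have h2 : (fun i => Fin.rev (w i)) = id := by
      have hs : StrictMono (id : Fin (n + 1) → Fin (n + 1)) := strictMono_id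
      apply (StrictMono.range_inj h1 hs).1
      rw [Set.range_id]
      exact (Fin.rev_surjective.comp w.surjective).range_eq
    ext i
    have h3 := congrFun h2 i
    simp only [id_eq] at h3
    rw [Fin.revPerm_apply, ← h3, Fin.rev_rev, h3]

end

theorem IsGrothendieck.eq_Gr {G : (n : ℕ) → Equiv.Perm (Fin n) → R} (hG : IsGrothendieck G)
    {n : ℕ} (w : Equiv.Perm (Fin n)) : G n w = Gr n (lehmer w) := by
  induction hm : n * n - len w using Nat.strong_induction_on generalizing w with
  | _ m ih =>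
  subst hm
  by_cases hd : ∀ (i : ℕ) (hi : i + 1 < n), w ⟨i + 1, hi⟩ < w ⟨i, by omega⟩
  · rw [eq_rev_of_no_ascent w hd, hG.top, Gr_staircase n (fun i hi => lehmer_rev hi),
      Fin.prod_univ_eq_prod_range (fun i => (X i : R) ^ (n - 1 - i)) n]
  · push Not at hd
    obtain ⟨i, hi, hle⟩ := hd
    have hlt : w ⟨i, by omega⟩ < w ⟨i + 1, hi⟩ := by
      refine lt_of_le_of_ne hle ?_
      intro h
      have := w.injective h
      simp at this
    obtain ⟨h1, h2, h3, h4⟩ := ascent_data w i hi hlt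
    have h5 := hG.step n (w * Equiv.swap ⟨i, by omega⟩ ⟨i + 1, hi⟩) i hi (by rw [h1]; omega)
    rw [h1, dd_eq_Q] at h5
    have h6 := len_le (w * Equiv.swap ⟨i, by omega⟩ ⟨i + 1, hi⟩)
    rw [h5, ih _ (by omega) _ rfl, h3, ← Gr_up hi h4]

theorem exists_isGrothendieck : ∃ G, IsGrothendieck G := by
  refine ⟨fun n w => Gr n (lehmer w), ?_, ?_⟩
  · intro n
    show Gr n (lehmer Fin.revPerm) = _
    rw [Gr_staircase n (fun i hi => lehmer_rev hi),
      Fin.prod_univ_eq_prod_range (fun i => (X i : R) ^ (n - 1 - i)) n]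
  · intro n w i hi hlen
    have hlt : w ⟨i + 1, hi⟩ < w ⟨i, by omega⟩ := by
      rcases lt_trichotomy (w ⟨i + 1, hi⟩) (w ⟨i, by omega⟩) with h | h | h
      · exact h
      · have := w.injective h
        simp at this
      · have := (ascent_data w i hi h).2.1
        omega
    obtain ⟨h1, h2⟩ := lehmer_swap w i hi hlt
    show Gr n _ = dd i ((1 + be * X (i + 1)) * Gr n (lehmer w))
    rw [dd_eq_Q, Gr_up hi h2, ← h1]

theorem isGrothendieck_unique {G G' : (n : ℕ) → Equiv.Perm (Fin n) → R}
    (h : IsGrothendieck G) (h' : IsGrothendieck G') : G = G' := by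
  funext n w
  rw [h.eq_Gr, h'.eq_Gr]

/-- every code is the Lehmer code of a permutation -/
theorem exists_perm (m : ℕ) (c : ℕ → ℕ) (h1 : ∀ i < m, c i ≤ m - 1 - i) (h2 : ∀ i, m ≤ i → c i = 0) :
    ∃ w : Equiv.Perm (Fin m), ∀ i, lehmer w i = c i := by
  induction m generalizing c with
  | zero => exact ⟨1, fun i => by rw [lehmer_ge _ (by omega), h2 i (by omega)]⟩
  | succ m ih =>
    obtain ⟨w', hw'⟩ := ih (fun i => c (i + 1)) (fun i hi => by
      have := h1 (i + 1) (by omega); omega) (fun i hi => h2 (i + 1) (by omega))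
    have hc0 : c 0 < m + 1 := by have := h1 0 (by omega); omega
    obtain ⟨a, ha⟩ : ∃ a : Fin (m + 1), a = ⟨c 0, hc0⟩ := ⟨_, rfl⟩
    let w : Equiv.Perm (Fin (m + 1)) :=
      (finSuccEquiv' 0).trans ((Equiv.optionCongr w').trans (finSuccEquiv' a).symm)
    have w0 : w 0 = a := by simp [w]
    have ws : ∀ i : Fin m, w i.succ = a.succAbove (w' i) := by
      intro i
      have : (finSuccEquiv' (0 : Fin (m + 1))) i.succ = some i := by
        rw [← Fin.succAbove_zero]; exact finSuccEquiv'_succAbove _ _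
      simp [w, this]
    refine ⟨w, fun i => ?_⟩
    cases i with
    | zero =>
      rw [lehmer_lt w (by omega : 0 < m + 1)]
      have e0 : (⟨0, by omega⟩ : Fin (m + 1)) = 0 := rfl
      rw [e0, w0]
      have : (univ.filter fun j : Fin (m + 1) => 0 < j ∧ w j < a).card =
          (Finset.Iio a).card := by
        apply Finset.card_bij (fun j _ => w j)
        · intro j hj
          simp only [Finset.mem_filter, Finset.mem_univ, true_and] at hj
          exact Finset.mem_Iio.2 hj.2
        · intro j _ j' _ h; exact w.injective h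
        · intro v hv
          refine ⟨w.symm v, ?_, by simp⟩
          simp only [Finset.mem_filter, Finset.mem_univ, true_and, Equiv.apply_symm_apply]
          refine ⟨?_, Finset.mem_Iio.1 hv⟩
          rw [Fin.pos_iff_ne_zero]
          intro h
          have h3 : v = a := by rw [← w0, ← h]; simp
          rw [h3] at hv
          exact absurd (Finset.mem_Iio.1 hv) (lt_irrefl _)
      rw [this, Fin.card_Iio, ha]
    | succ i =>
      rw [← hw' i]
      by_cases hi : i < m
      · rw [lehmer_lt w (by omega : i + 1 < m + 1), lehmer_lt w' hi]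
        have e1 : (⟨i + 1, by omega⟩ : Fin (m + 1)) = (⟨i, hi⟩ : Fin m).succ := rfl
        rw [e1, ws]
        symm
        apply Finset.card_bij (fun j _ => Fin.succ j)
        · intro j hj
          simp only [Finset.mem_filter, Finset.mem_univ, true_and] at hj ⊢
          refine ⟨Fin.succ_lt_succ_iff.2 hj.1, ?_⟩
          rw [ws]
          exact (Fin.strictMono_succAbove a) hj.2
        · intro j _ j' _ h; exact Fin.succ_injective _ h
        · intro j hj
          simp only [Finset.mem_filter, Finset.mem_univ, true_and] at hj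
          obtain ⟨j', rfl⟩ : ∃ j', j = Fin.succ j' := by
            refine ⟨j.pred ?_, (Fin.succ_pred j _).symm⟩
            intro h
            rw [h] at hj
            exact absurd hj.1 (Fin.not_lt_zero _)
          refine ⟨j', ?_, rfl⟩
          simp only [Finset.mem_filter, Finset.mem_univ, true_and]
          refine ⟨Fin.succ_lt_succ_iff.1 hj.1, ?_⟩
          have := hj.2
          rw [ws] at this
          exact (Fin.strictMono_succAbove a).lt_iff_lt.1 this
      · rw [lehmer_ge w (by omega), lehmer_ge w' (by omega)]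

/-- The family of Lascoux polynomials (the family with `IsLascoux`; it is unique by
`isLascoux_unique`). -/
noncomputable def lascoux : (ℕ →₀ ℕ) → R := exists_isLascoux.choose

theorem isLascoux_lascoux : IsLascoux lascoux := exists_isLascoux.choose_spec

/-- The family of Grothendieck polynomials `grothendieck n w`, `w ∈ S_n` (the family with
`IsGrothendieck`; it is unique by `isGrothendieck_unique`). -/
noncomputable def grothendieck : (n : ℕ) → Equiv.Perm (Fin n) → R := exists_isGrothendieck.choose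

theorem isGrothendieck_grothendieck : IsGrothendieck grothendieck :=
  exists_isGrothendieck.choose_spec

end Pool.Agent.Helper32.Lasc
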