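import Pool.Agent.Helper32.Lasc.Basic

/-! The operators `D k n` and `V k w` and their commutation rules. -/

namespace Pool.Agent.Helper32.Lasc

open MvPolynomial Finset

/-- `D k n = P_{k+n-1} ⋯ P_k`. -/
noncomputable def D (k : ℕ) : ℕ → (R →ₗ[Polynomial ℤ] R)
  | 0 => LinearMap.id
  | n + 1 => (P (k + n)).comp (D k n)

@[simp] theorem D_zero (k : ℕ) (f : R) : D k 0 f = f := rfl
theorem D_succ (k n : ℕ) (f : R) : D k (n + 1) f = P (k + n) (D k n f) := rfl
theorem D_succ' (k n : ℕ) (f : R) : D k (n + 1) f = D (k + 1) n (P k f) := by
  induction n with
  | zero => simp [D_succ]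
  | succ n ih =>
    rw [D_succ, ih, D_succ]; congr 2; omega

theorem D_P_far {k n i : ℕ} (h : k + n + 1 ≤ i ∨ i + 2 ≤ k) (f : R) :
    D k n (P i f) = P i (D k n f) := by
  induction n with
  | zero => rfl
  | succ n ih =>
    rw [D_succ, ih (by omega), D_succ, P_comm (by omega)]

theorem D_X {k n j : ℕ} (h : j < k ∨ k + n < j) (f : R) :
    D k n (X j * f) = X j * D k n f := by
  induction n with
  | zero => rfl
  | succ n ih => rw [D_succ, ih (by omega), D_succ, X_P_comm (by omega) (by omega)]

theorem D_z {k n j : ℕ} (h : j < k ∨ k + n < j) (f : R) :
    D k n (z j * f) = z j * D k n f := by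
  induction n with
  | zero => rfl
  | succ n ih => rw [D_succ, ih (by omega), D_succ, z_P_comm (by omega) (by omega)]

theorem D_be (k n : ℕ) (f : R) : D k n (be * f) = be * D k n f := by
  induction n with
  | zero => rfl
  | succ n ih => rw [D_succ, ih, D_succ, P_be]

theorem D_sh (k n : ℕ) (f : R) : D (k + 1) n (sh f) = sh (D k n f) := by
  induction n with
  | zero => rfl
  | succ n ih => rw [D_succ, ih, D_succ, ← P_sh]; congr 2; omega

theorem D_P {k n j : ℕ} (h1 : k ≤ j) (h2 : j + 2 ≤ k + n) (f : R) :
    D k n (P (j + 1) f) = P j (D k n f) := by
  induction n with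
  | zero => omega
  | succ n ih =>
    by_cases h : j + 2 ≤ k + n
    · rw [D_succ, ih h, D_succ, P_comm (by omega)]
    · obtain ⟨m, rfl⟩ : ∃ m, n = m + 1 := ⟨n - 1, by omega⟩
      have hj : j = k + m := by omega
      subst hj
      rw [D_succ, D_succ, D_P_far (by omega), D_succ, D_succ]
      exact (P_braid (k + m) _).symm

theorem D_D {k n p : ℕ} (h : p + 1 ≤ n) (f : R) :
    D k n (D (k + 1) p f) = D k p (D k n f) := by
  induction p with
  | zero => rfl
  | succ p ih =>
    rw [D_succ, show k + 1 + p = (k + p) + 1 by omega, D_P (by omega) (by omega), ih (by omega),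
      D_succ]

theorem D_P_self {k n : ℕ} (h : 1 ≤ n) (f : R) : D k n (P k f) = D k n f := by
  obtain ⟨m, rfl⟩ : ∃ m, n = m + 1 := ⟨n - 1, by omega⟩
  rw [D_succ', D_succ', P_P]

theorem D_zX_P {k n p : ℕ} (h : p + 1 ≤ n) (f : R) :
    D k n (D (k + 1) p (z k * X (k + 1) * P k f)) = 0 := by
  rw [D_D h]
  obtain ⟨m, rfl⟩ : ∃ m, n = m + 1 := ⟨n - 1, by omega⟩
  rw [D_succ', P_zX_P, map_zero, map_zero]

theorem D_add_split (k m n : ℕ) (f : R) : D k (m + n) f = D (k + m) n (D k m f) := by
  induction n with
  | zero => rfl
  | succ n ih => rw [← Nat.add_assoc, D_succ, ih, D_succ]; congr 2; omega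

/-- The operators `V k w`. -/
noncomputable def V : ℕ → List Bool → (R →ₗ[Polynomial ℤ] R)
  | _, [] => LinearMap.id
  | k, false :: w => (LinearMap.mulLeft (Polynomial ℤ) (X k : R)).comp (V (k + 1) w)
  | k, true :: w => (D k w.length).comp
      ((LinearMap.mulLeft (Polynomial ℤ) (z k : R)).comp (V (k + 1) w))

@[simp] theorem V_nil (k : ℕ) (f : R) : V k [] f = f := rfl
theorem V_false (k : ℕ) (w : List Bool) (f : R) : V k (false :: w) f = X k * V (k + 1) w f := rfl
theorem V_true (k : ℕ) (w : List Bool) (f : R) :
    V k (true :: w) f = D k w.length (z k * V (k + 1) w f) := rfl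

theorem V_be (k : ℕ) (w : List Bool) (f : R) : V k w (be * f) = be * V k w f := by
  induction w generalizing k with
  | nil => rfl
  | cons a w ih =>
    cases a
    · rw [V_false, V_false, ih]; ring
    · rw [V_true, V_true, ih, mul_left_comm, D_be]

theorem V_P_far {k i : ℕ} {w : List Bool} (h : k + w.length ≤ i ∨ i + 2 ≤ k) (f : R) :
    V k w (P i f) = P i (V k w f) := by
  induction w generalizing k with
  | nil => rfl
  | cons a w ih =>
    simp only [List.length_cons] at h
    cases a
    · rw [V_false, V_false, ih (by omega), X_P_comm (by omega) (by omega)]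
    · rw [V_true, V_true, ih (by omega), ← z_P_comm (by omega) (by omega), D_P_far (by omega)]

theorem V_X {k j : ℕ} {w : List Bool} (h : j < k) (f : R) :
    V k w (X j * f) = X j * V k w f := by
  induction w generalizing k with
  | nil => rfl
  | cons a w ih =>
    cases a
    · rw [V_false, V_false, ih (by omega)]; ring
    · rw [V_true, V_true, ih (by omega), mul_left_comm, D_X (by omega)]

theorem V_z {k j : ℕ} {w : List Bool} (h : j < k) (f : R) :
    V k w (z j * f) = z j * V k w f := by
  induction w generalizing k with
  | nil => rfl
  | cons a w ih =>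
    cases a
    · rw [V_false, V_false, ih (by omega)]; ring
    · rw [V_true, V_true, ih (by omega), mul_left_comm, D_z (by omega)]

theorem V_sh (k : ℕ) (w : List Bool) (f : R) : V (k + 1) w (sh f) = sh (V k w f) := by
  induction w generalizing k with
  | nil => rfl
  | cons a w ih =>
    cases a
    · rw [V_false, V_false, ih, map_mul, sh_X]
    · rw [V_true, V_true, ih, ← D_sh, map_mul sh, sh_z]

/-- position of the first hole (`= length` if there is none) -/
def fh : List Bool → ℕ
  | [] => 0
  | true :: _ => 0
  | false :: w => fh w + 1

@[simp] theorem fh_nil : fh [] = 0 := rfl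
@[simp] theorem fh_true (w : List Bool) : fh (true :: w) = 0 := rfl
@[simp] theorem fh_false (w : List Bool) : fh (false :: w) = fh w + 1 := rfl

theorem fh_le (w : List Bool) : fh w ≤ w.length := by
  induction w with
  | nil => simp
  | cons a w ih => cases a <;> simp [ih]

theorem fh_lt {w : List Bool} (h : true ∈ w) : fh w < w.length := by
  induction w with
  | nil => simp at h
  | cons a w ih =>
    cases a
    · simp only [List.mem_cons, Bool.true_eq_false, false_or] at h
      simp [ih h]
    · simp

theorem lt_length_of_lt_fh {w : List Bool} {j : ℕ} (h : j < fh w) : j < w.length :=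
  lt_of_lt_of_le h (fh_le w)

theorem fh_set {w : List Bool} {j : ℕ} (h : j < fh w) : fh (w.set j true) = j := by
  induction w generalizing j with
  | nil => simp at h
  | cons a w ih =>
    cases a
    · cases j with
      | zero => simp
      | succ j =>
        simp only [fh_false, Nat.add_lt_add_iff_right] at h
        simp [ih h]
    · simp at h

theorem mem_set_of_lt_fh {w : List Bool} {j : ℕ} (h : j < fh w) : true ∈ w.set j true := by
  induction w generalizing j with
  | nil => simp at h
  | cons a w ih =>
    cases a
    · cases j with
      | zero => simp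
      | succ j =>
        simp only [fh_false, Nat.add_lt_add_iff_right] at h
        simp [ih h]
    · simp at h

/-- Rule (R3). -/
theorem V_D (w : List Bool) (k : ℕ) (f : R) :
    V k w (D k w.length f) = D k w.length (V (k + 1) w f)
      + (if true ∈ w then be * D k (w.length - 1) (X k * V (k + 1) w f) else 0)
      + ∑ j ∈ range (fh w), D k j (X k * V (k + 1) (w.set j true) f) := by
  induction w generalizing k f with
  | nil => simp
  | cons a w ih =>
    cases a
    · -- `false :: w`
      rw [V_false, List.length_cons, D_succ', ih (k + 1) (P k f)]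
      have hm : (true ∈ (false :: w)) ↔ true ∈ w := by simp
      rw [fh_false, Finset.sum_range_succ']
      simp only [List.set_cons_succ, List.set_cons_zero, D_zero, hm]
      have e1 : X k * D (k + 1) w.length (V (k + 1 + 1) w (P k f)) =
          D k (w.length + 1) (V (k + 1) (false :: w) f) + X k * V (k + 1) (true :: w) f := by
        rw [V_P_far (by omega), ← D_X (by omega), X_P, map_add, D_succ', V_false, V_true,
          mul_assoc (X k), D_X (by omega)]
      have e2 : X k * (if true ∈ w then
            be * D (k + 1) (w.length - 1) (X (k + 1) * V (k + 1 + 1) w (P k f)) else 0) =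
          if true ∈ w then be * D k (w.length + 1 - 1) (X k * V (k + 1) (false :: w) f) else 0 := by
        by_cases h : true ∈ w
        · have hl : 0 < w.length := List.length_pos_of_mem h
          rw [if_pos h, if_pos h, V_P_far (by omega), mul_left_comm, ← D_X (by omega),
            ← mul_assoc (X k), XX_P, show w.length + 1 - 1 = (w.length - 1) + 1 by omega,
            D_succ', V_false, mul_assoc]
        · rw [if_neg h, if_neg h, mul_zero]
      have e3 : X k * ∑ j ∈ range (fh w),
            D (k + 1) j (X (k + 1) * V (k + 1 + 1) (w.set j true) (P k f)) =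
          ∑ j ∈ range (fh w), D k (j + 1) (X k * V (k + 1) (false :: w.set j true) f) := by
        rw [Finset.mul_sum]
        apply Finset.sum_congr rfl
        intro j _
        rw [V_P_far (by omega), ← D_X (by omega), ← mul_assoc (X k), XX_P, D_succ', V_false,
          mul_assoc]
      rw [mul_add, mul_add, e1, e2, e3]
      ring
    · -- `true :: w`
      rw [V_true, List.length_cons, D_succ', ih (k + 1) (P k f)]
      have hm : (true ∈ (true :: w)) := by simp
      rw [if_pos hm, fh_true, Finset.range_zero, Finset.sum_empty, add_zero, Nat.add_sub_cancel,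
        mul_add, mul_add, map_add, map_add]
      have e1 : D k w.length (z k * D (k + 1) w.length (V (k + 1 + 1) w (P k f))) =
          D k (w.length + 1) (V (k + 1) (true :: w) f)
            + be * D k w.length (X k * V (k + 1) (true :: w) f) := by
        rw [V_P_far (by omega), ← D_z (by omega), z_P, map_add, map_add, V_true, ← D_succ',
          D_D (n := w.length + 1) (by omega), ← D_be, mul_assoc be, mul_assoc be, D_be,
          mul_assoc (X k), D_X (by omega), D_be]
      have e2 : D k w.length (z k * (if true ∈ w then
            be * D (k + 1) (w.length - 1) (X (k + 1) * V (k + 1 + 1) w (P k f)) else 0)) = 0 := by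
        by_cases h : true ∈ w
        · have hl : 0 < w.length := List.length_pos_of_mem h
          rw [if_pos h, V_P_far (by omega), mul_left_comm, D_be, ← D_z (by omega), ← mul_assoc,
            D_zX_P (by omega), mul_zero]
        · rw [if_neg h, mul_zero, map_zero]
      have e3 : D k w.length (z k * ∑ j ∈ range (fh w),
            D (k + 1) j (X (k + 1) * V (k + 1 + 1) (w.set j true) (P k f))) = 0 := by
        rw [Finset.mul_sum, map_sum]
        apply Finset.sum_eq_zero
        intro j hj
        have := lt_length_of_lt_fh (Finset.mem_range.1 hj)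
        rw [V_P_far (by omega), ← D_z (by omega), ← mul_assoc, D_zX_P (by omega)]
      rw [e1, e2, e3, add_zero, add_zero]

theorem V_true_D_zero {w : List Bool} {k q : ℕ} (hq : q < w.length) (g : R) :
    D k w.length (z k * D (k + 1) q (X (k + 1) * P k g)) = 0 := by
  rw [← D_z (by omega), ← mul_assoc, D_zX_P (by omega)]

/-- Rules (Ra), (Rb), (Rc). -/
theorem V_D_erase (w : List Bool) (k q : ℕ) (hq : q < w.length) (f : R) :
    V k w (D k q f) =
      if w.getD q false = true then
        D k (w.length - 1) (z k * V (k + 1) (w.eraseIdx q) f)
          + ∑ p ∈ range (fh w), D k p (X k * V (k + 1) ((w.eraseIdx q).set p true) f)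
      else if q < fh w then D k q (X k * V (k + 1) (w.eraseIdx q) f) else 0 := by
  induction w generalizing k q f with
  | nil => simp at hq
  | cons a w ih =>
    cases q with
    | zero =>
      cases a
      · simp [V_false]
      · simp [V_true]
    | succ q =>
      have hq' : q < w.length := by simpa using hq
      have hw1 : w.length - 1 + 1 = w.length := by omega
      have hlen : (w.eraseIdx q).length = w.length - 1 := by
        rw [List.length_eraseIdx]; simp [hq']
      cases a
      · rw [V_false, D_succ', ih (k + 1) q hq' (P k f)]
        simp only [List.getD_cons_succ, List.eraseIdx_cons_succ, fh_false,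
          Nat.add_lt_add_iff_right, List.length_cons, Nat.add_sub_cancel]
        by_cases h : w.getD q false = true
        · rw [if_pos h, if_pos h, Finset.sum_range_succ', mul_add]
          simp only [List.set_cons_succ, List.set_cons_zero, D_zero]
          have e1 : X k * D (k + 1) (w.length - 1)
              (z (k + 1) * V (k + 1 + 1) (w.eraseIdx q) (P k f)) =
              D k w.length (z k * V (k + 1) (false :: w.eraseIdx q) f)
                + X k * V (k + 1) (true :: w.eraseIdx q) f := by
            rw [V_P_far (by omega), ← D_X (by omega), ← mul_assoc (X k), Xz_P, map_add,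
              ← D_succ', hw1, V_false, V_true, hlen, mul_assoc (X k), D_X (by omega),
              mul_assoc (z k), add_comm]
          have e2 : X k * ∑ p ∈ range (fh w), D (k + 1) p
              (X (k + 1) * V (k + 1 + 1) ((w.eraseIdx q).set p true) (P k f)) =
              ∑ p ∈ range (fh w), D k (p + 1)
                (X k * V (k + 1) (false :: (w.eraseIdx q).set p true) f) := by
            rw [Finset.mul_sum]
            apply Finset.sum_congr rfl
            intro j _
            rw [V_P_far (by omega), ← D_X (by omega), ← mul_assoc (X k), XX_P, D_succ', V_false,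
              mul_assoc]
          rw [e1, e2]; ring
        · rw [if_neg h, if_neg h]
          by_cases h2 : q < fh w
          · rw [if_pos h2, if_pos h2, V_P_far (by omega), ← D_X (by omega), ← mul_assoc (X k),
              XX_P, D_succ', V_false, mul_assoc]
          · rw [if_neg h2, if_neg h2, mul_zero]
      · rw [V_true, D_succ', ih (k + 1) q hq' (P k f)]
        simp only [List.getD_cons_succ, List.eraseIdx_cons_succ, fh_true,
          List.length_cons, Nat.add_sub_cancel, Finset.range_zero, Finset.sum_empty, add_zero,
          Nat.not_lt_zero, if_false]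
        by_cases h : w.getD q false = true
        · rw [if_pos h, if_pos h, mul_add, map_add, Finset.mul_sum, map_sum]
          have e2 : ∑ p ∈ range (fh w), D k w.length (z k * D (k + 1) p
              (X (k + 1) * V (k + 1 + 1) ((w.eraseIdx q).set p true) (P k f))) = 0 := by
            apply Finset.sum_eq_zero
            intro p hp
            rw [V_P_far (by omega),
              V_true_D_zero (lt_length_of_lt_fh (Finset.mem_range.1 hp))]
          rw [e2, add_zero, V_P_far (by omega), ← D_z (by omega), ← mul_assoc (z k), zz_P,
            D_D (n := w.length) (by omega), D_P_self (by omega), V_true, hlen,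
            ← D_z (j := k) (by omega), D_D (n := w.length) (by omega), mul_assoc (z k)]
        · rw [if_neg h, if_neg h]
          by_cases h2 : q < fh w
          · rw [if_pos h2, V_P_far (by omega), V_true_D_zero hq']
          · rw [if_neg h2, mul_zero, map_zero]

end Pool.Agent.Helper32.Lasc
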